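import Mathlib

/-!
# Project BT: the real estimates in `S_VT` and `S_TOP`, separately
-/

set_option autoImplicit false

namespace Pool.Agent.H207.BT

/-- **Real estimates in the step of `S_VT`** (`R = δ' P`, `A = 2 K₀ B`, `σ = 1 / (2 K₀ B)`).

Proof. `γ = log μ / log C ∈ (0, 1]`, `β ≤ γ / 16 ≤ 1 / 16`. All constants `c_j > 0` depend only on `C, c, μ, B, K₀, β, δ₁, M`.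
(1) `R ^ m P ≥ c₁ μ ^ N` with `c₁ = min 1 (c / B)` (as `A ≥ 1`), so `R ^ (m + 1) = δ' R ^ m P ≥ c₁ μ ^ N δ' ≥ c₁ δ'`. As `R ≤ 1`:
`R ≥ (c₁ δ') ^ (1 / (m + 1)) ≥ (c₁ δ') ^ (1/2)`, and `P = R / δ'`, so `C ^ N ≥ P ≥ c₁ δ' ^ (-1/2) ≥ c₁ δ ^ (-1/2)`.
(2) `μ ^ N = (C ^ N) ^ γ ≥ c₃ δ ^ (- γ / 2) ≥ c₃ δ ^ (- 8 β)`. Case `y = R / (2 K₀ B)`, `σ = 1 / (2 K₀ B)`:
`y ^ (m + 1) ≥ σ ^ (M + 1) c₁ μ ^ N δ' ≥ c₄ δ ^ (1 + β / 8 - 8 β)`, at least `(2 + K₀ B) δ` for small `δ`.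
`y' ^ m P ≥ (σ R) ^ ((1 + β) m) P ≥ σ ^ (2 M) (R ^ m P) R ^ (β m)`, `R ^ m ≥ R ^ (m + 1) ≥ c₁ δ'`, so
`R ^ (β m) ≥ (c₁ δ') ^ β ≥ c₅ δ ^ (2 β)`, so `y' ^ m P ≥ c₆ δ ^ (2 β - 8 β)`. `y' / P = y' δ' / R ≥ σ ^ 2 R ^ β δ'`, `R ^ β ≥ (c₁ δ') ^ (β / 2)`,
so `y' / P ≥ c₇ δ' ^ (1 + β / 2) ≥ c₇ δ ^ ((1 + β / 8) (1 + β / 2))`, and `(1 + β / 8) (1 + β / 2) < 1 + β`.
Case `y = δ₁ ^ (1 / (m + 1)) ≤ R / (2 K₀ B) ≤ R`: `y ^ (m + 1) = δ₁`, `δ₁ ≤ y`, `y' ≥ y ^ (1 + β) ≥ δ₁ ^ ((1 + β) / (m + 1)) ≥ δ₁`,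
`y' ^ m ≥ δ₁ ^ M`, `P = R / δ' ≥ δ₁ / δ`; `y' / P = y' δ' / R ≥ δ₁ δ' ≥ δ₁ δ ^ (1 + β / 8)`. In all cases `δ` small is enough. -/
def S_REAL1 : Prop :=
  ∀ (C c μ B K₀ β δ₁ : ℝ) (M : ℕ), 0 < c → 1 < μ → μ ≤ C → 1 ≤ B → 1 ≤ K₀ → 0 < β →
    β * Real.log C ≤ Real.log μ / 16 → 0 < δ₁ → δ₁ ≤ 1 → ∃ δb > (0 : ℝ),
      ∀ (δ δ' P : ℝ) (N m : ℕ), 0 < δ → δ < δb → δ ^ (1 + β / 8) ≤ δ' → δ' ≤ δ → 1 ≤ m → m ≤ M →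
        0 < P → P ≤ C ^ N → δ' * P ≤ 1 →
        c * μ ^ (N + 1) ≤ B * ((δ' * P) / (2 * K₀ * B)) ^ m * P →
        ∀ y : ℝ, y = min ((δ' * P) / (2 * K₀ * B)) (δ₁ ^ ((1 : ℝ) / ((m : ℝ) + 1))) →
          0 < y ∧ (2 + K₀ * B) * δ ≤ y ^ (m + 1) ∧ y ^ (m + 1) ≤ δ₁ ∧
          ∀ y' : ℝ, y ^ (1 + β) ≤ y' → y' ≤ y →
            2 * K₀ * B ≤ y' ^ m * P ∧ δ ^ (1 + β) ≤ y' / (B * K₀ * P)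

/-- **Real estimates in `S_TOP`** (`R = r P`, `A = 2 B / σ`, `y = σ / (2 B) * R`).

Proof. As in `S_REAL1` (1), (2) with `r` instead of `δ'`, `δ`: `R ^ m P ≥ c₁ μ ^ N`, `R ^ (m + 1) ≥ c₁ μ ^ N r`, `μ ^ N ≥ c₃ r ^ (- 8 β)`.
With `σ' = σ / (2 B)`: `y' ^ (m + 1) ≥ y ^ ((1 + β) (m + 1)) = y ^ (m + 1) (y ^ (m + 1)) ^ β`, `y ^ (m + 1) ≥ c₄ μ ^ N r ≥ c₄ r`, so both are at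
least `c₄ μ ^ N r (c₄ r) ^ β ≥ c₅ r ^ (1 + β - 8 β)`, and `((y) ^ (m + 1)) ^ (1 + β)` is the same number.
`y' ^ m P ≥ σ' ^ (2 M) (R ^ m P) R ^ (β m) ≥ c₆ μ ^ N (c₁ r) ^ β ≥ c₇ r ^ (β - 8 β)`. -/
def S_REAL2 : Prop :=
  ∀ (C c μ B K β σ : ℝ) (M : ℕ), 0 < c → 1 < μ → μ ≤ C → 1 ≤ B → 1 ≤ K → 0 < β →
    β * Real.log C ≤ Real.log μ / 16 → 0 < σ → σ ≤ 1 → ∃ r₀ > (0 : ℝ),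
      ∀ (r P : ℝ) (N m : ℕ), 0 < r → r ≤ r₀ → 1 ≤ m → m ≤ M → 0 < P → P ≤ C ^ N → r * P ≤ 1 →
        c * μ ^ (N + 1) ≤ B * ((r * P) / (2 * B / σ)) ^ m * P →
        K * r ≤ ((σ / (2 * B) * (r * P)) ^ (m + 1)) ^ (1 + β) ∧
        ∀ y' : ℝ, (σ / (2 * B) * (r * P)) ^ (1 + β) ≤ y' → y' ≤ σ / (2 * B) * (r * P) →
          B * K * r ≤ y' ^ (m + 1) ∧ B * K ≤ σ * (y' ^ m * P)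

end Pool.Agent.H207.BT
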