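import Pool.Agent.H207.BT.Stm2
import Pool.Agent.H211.HY.AsmE

/-!
# Project BT: assembly
-/

set_option autoImplicit false

open Topology Filter Metric Set MeasureTheory Polynomial

namespace Pool.Agent.H207.BT

open Pool.Agent.H790R3.RB Pool.Agent.H211.HY

theorem asm_sett (hTRAN : S_TRAN) (hCLOSE : S_CLOSE) (hTG3 : S_TG3) {d k : ℕ} {x₀ : CV d}
    {c₀ : Fin k → ℂ} {m : Fin k → ℕ} {X : (Fin k → ℂ) → CV d} {c : Fin k → (Fin k → ℂ) → ℂ}
    {ρ' C K μ : ℝ} {κ : Fin k → ℂ} {xx : Fin k → ℕ → ℝ} (h : Conc x₀ c₀ m X c ρ' C K μ κ xx)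
    (g : Fin k) : ∃ η B : ℝ, Sett (fun i => cf x₀ X (c₀ i)) (fun i => cv x₀ X (c₀ i) (c i))
      (fun i => cz x₀ (c₀ i)) xx ρ' C K μ κ m (RPc x₀ X c₀ c g) η B := by
  obtain ⟨η, hη, B, hB, hcl⟩ := hCLOSE d k x₀ c₀ m X c ρ' C K μ κ xx h
  refine ⟨η, B, ⟨h.good, h.fac.pos, hη, hB, ?_, ?_, ?_⟩⟩
  · intro i N s w hs hn hR
    exact hTRAN d k x₀ c₀ m X c ρ' C K μ κ xx h g i N s w hs hn hR
  · intro i n hin
    exact hcl g i n hin
  · intro ε hε hε1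
    obtain ⟨ρ₁, hρ₁, -, L, hq⟩ := hTG3 d k x₀ c₀ m X c ρ' h.hd h.nd h.ce h.leo h.nrm.1 h.fac
      h.fami ε hε hε1
    refine ⟨ρ₁, hρ₁, L, fun i n => ?_⟩
    obtain ⟨q, hq1, hq2, hq3, hq4⟩ := hq g (tau (qo x₀ (c₀ i) (n + 1))) (cz x₀ (c₀ i) n) norm_zc
    exact ⟨q, hq1, hq2, hq3, hq4⟩

/-- the solution, in the concrete setting -/
theorem asm_sol (hTRAN : S_TRAN) (hCLOSE : S_CLOSE) (hTG3 : S_TG3) (hTOP : S_TOP)
    (hSOLVE3 : S_SOLVE3) {d k : ℕ} {x₀ : CV d}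
    {c₀ : Fin k → ℂ} {m : Fin k → ℕ} {X : (Fin k → ℂ) → CV d} {c : Fin k → (Fin k → ℂ) → ℂ}
    {ρ' C K μ : ℝ} {κ : Fin k → ℂ} {xx : Fin k → ℕ → ℝ} (h : Conc x₀ c₀ m X c ρ' C K μ κ xx)
    (φ : Fin k → Fin k) {r₁ : ℝ} (hr₁ : 0 < r₁) : ∃ s : Fin k → ℂ, ‖s‖ < r₁ ∧ ‖s‖ < ρ' ∧
      ∀ i, RPc x₀ X c₀ c (φ i) i 0 s (cv x₀ X (c₀ i) (c i) s) := by
  have hk : 0 < k := h.fac.kpos h.hd
  have : Nonempty (Fin k) := ⟨⟨0, hk⟩⟩
  have hρ' : 0 < ρ' := h.fami.ρ0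
  choose η B hS using fun g : Fin k => asm_sett hTRAN hCLOSE hTG3 h g
  have hall : ∀ σ > (0 : ℝ), ∃ A > (0 : ℝ), ∀ ε > (0 : ℝ), ∃ r₀ > (0 : ℝ), ∀ (i : Fin k) (N : ℕ)
        (r : ℝ), 0 < r → r ≤ r₀ → r * ‖DD (cf x₀ X (c₀ i)) (cz x₀ (c₀ i)) N‖ ≤ 1 →
        (ε ≤ r * ‖DD (cf x₀ X (c₀ i)) (cz x₀ (c₀ i)) N‖ ∨
          A * xx i N ≤ r * ‖DD (cf x₀ X (c₀ i)) (cz x₀ (c₀ i)) N‖) →
        ∃ q : (Fin k → ℂ) → ℂ, (∀ s ∈ ball (0 : Fin k → ℂ) r, RPc x₀ X c₀ c (φ i) i N s (q s)) ∧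
          (∀ s ∈ ball (0 : Fin k → ℂ) r, ∀ s' ∈ ball (0 : Fin k → ℂ) r,
            ‖q s - q s'‖ ≤ σ * ‖DD (cf x₀ X (c₀ i)) (cz x₀ (c₀ i)) N‖ * ‖s - s'‖) ∧
          ‖q 0 - cz x₀ (c₀ i) N‖ ≤ σ * (r * ‖DD (cf x₀ X (c₀ i)) (cz x₀ (c₀ i)) N‖) := by
    intro σ hσ
    choose A hA hA2 using fun g : Fin k => hTOP k _ _ _ _ _ _ _ _ _ _ _ _ _ (hS g) σ hσ
    obtain ⟨g₁, hg₁⟩ := Finite.exists_max A
    refine ⟨A g₁, hA g₁, fun ε hε => ?_⟩
    choose r₀ hr₀ hr₀2 using fun g : Fin k => hA2 g ε hε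
    obtain ⟨g₂, hg₂⟩ := Finite.exists_min r₀
    refine ⟨r₀ g₂, hr₀ g₂, fun i N r hr hrr h1 h2 => ?_⟩
    refine hr₀2 (φ i) i N r hr (hrr.trans (hg₂ _)) h1 ?_
    rcases h2 with h2 | h2
    · exact Or.inl h2
    · exact Or.inr ((mul_le_mul_of_nonneg_right (hg₁ _) ((h.good i).xx N).1.le).trans h2)
  obtain ⟨s, hs, hsol⟩ := hSOLVE3 k (fun i => cf x₀ X (c₀ i)) (fun i => cv x₀ X (c₀ i) (c i))
    (fun i => cz x₀ (c₀ i)) xx ρ' C K μ κ h.good
    (fun i N s u => RPc x₀ X c₀ c (φ i) i N s u) hall (min r₁ ρ') (lt_min hr₁ hρ')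
  have hs1 := hs.trans_le (min_le_left _ _)
  have hs2 := hs.trans_le (min_le_right _ _)
  refine ⟨s, hs1, hs2, fun i => ?_⟩
  obtain ⟨N, hN1, hN2⟩ := hsol i
  exact hTRAN d k x₀ c₀ m X c ρ' C K μ κ xx h (φ i) i N s (cv x₀ X (c₀ i) (c i)) hs2 hN2 hN1

/-- all types, in the normalized situation -/
theorem asm_typ (hTRAN : S_TRAN) (hCLOSE : S_CLOSE) (hTG3 : S_TG3) (hTOP : S_TOP)
    (hSOLVE3 : S_SOLVE3) (hWRF : S_WRF) (hDCR : S_DCR) (hLEO : S_LEO)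
    (hFACT : S_FACT) (hUNIF : S_UNIF) (hDIST : S_DIST) (hFUNC : S_FUNC)
    (hFAM : S_FAM) (hORBS : S_ORBS) (hDUAL : S_DUAL) (hINV : S_INV) (hL1 : S_L1)
    (hZERO : S_ZERO) (hLINE : S_LINE) {d : ℕ} {x : CV d} (hx : Hyp x) (hn : Nrm x) : TypP x := by
  have hd := hx.hd
  have hdcr : DCR x := hDCR d x hd hx.nd hx.ce hx.jul
  have hleo : LEO x := hLEO d x hd hx.nd hx.ce hdcr
  obtain ⟨k, c₀, m, hf⟩ := hFACT d x hd hn.1
  obtain ⟨b, hb1, hb2⟩ := asm_dir hINV hL1 hZERO hLINE hORBS hDUAL hx hn hleo hf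
  have hQ : ∀ i, (pol x 1).eval (c₀ i) ≠ 0 := by
    intro i
    have h1 := hn.2 (c₀ i, 1) (one_ne _) (hf.crit i) 1
    rw [Function.iterate_one, hF_pol] at h1
    exact h1
  obtain ⟨ρ, X, c, hX, hXb⟩ := hFAM d k x c₀ m b hd hx.nd hn.1 hf hQ hb1
  obtain ⟨ρ', C, K, μ, κ, xx, hρ', hρ'ρ, hgood, hstep, hval, hxx⟩ :=
    good_of hUNIF hDIST hFUNC hx hn hf hX (fun i l => by rw [hXb l]; exact hb2 i l)
  obtain ⟨ρU, hρU, hρUρ, MU, hU⟩ := hUNIF d k x X ρ hd hx.nd hX.ρ0 hX.dif hX.at0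
  set ϱ := min ρ' ρU with hϱ
  have hϱ0 : 0 < ϱ := lt_min hρ' hρU
  have hϱ1 : ϱ ≤ ρ' := min_le_left _ _
  have hϱ2 : ϱ ≤ ρU := min_le_right _ _
  have hϱρ : ϱ ≤ ρ := hϱ1.trans hρ'ρ
  have hfami : Fami x k c₀ m X c ϱ :=
    ⟨hϱ0, hX.dif.mono (ball_subset_ball hϱρ), hX.at0,
      fun i => (hX.cdf i).mono (ball_subset_ball hϱρ), hX.c0,
      fun s hs => hX.nd s (ball_subset_ball hϱρ hs), fun s hs => hX.ne s (ball_subset_ball hϱρ hs),
      fun s hs => hX.fac s (ball_subset_ball hϱρ hs)⟩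
  have hconc : Conc x c₀ m X c ϱ C K μ κ xx := by
    refine ⟨hd, hx.nd, hx.ce, hleo, hn, hf, hfami, fun i => ?_, ?_, ?_, fun i n => (hxx i n).2, ?_⟩
    · have hg := hgood i
      exact
        { ρ0 := hϱ0
          C1 := hg.C1
          c0 := hg.c0
          μ1 := hg.μ1
          κ0 := hg.κ0
          v0 := hg.v0
          vd := hg.vd.mono (ball_subset_ball hϱ1)
          vb := fun s hs => hg.vb s (ball_subset_ball hϱ1 hs)
          fz := hg.fz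
          fd := fun n => (hg.fd n).mono (Set.prod_mono (ball_subset_ball hϱ1) (ball_subset_ball hϱ1))
          fb := fun n s hs w hw => hg.fb n s (ball_subset_ball hϱ1 hs) w (ball_subset_ball hϱ1 hw)
          xx := hg.xx
          dx := hg.dx
          ds := fun n s hs w hw => hg.ds n s (ball_subset_ball hϱ1 hs) w (ball_subset_ball hϱ1 hw)
          gr := hg.gr
          fn := hg.fn }
    · exact fun i n s hs w hw =>
        hstep i n s (ball_subset_ball hϱ1 hs) w (ball_subset_ball hϱ1 hw)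
    · exact fun i s hs => hval i s (ball_subset_ball hϱ1 hs)
    · intro i n s hs w hw
      have h1 := (hU (qo x (c₀ i) (n + 1)) (qo_ne hx.nd _ _) s (ball_subset_ball hϱ2 hs) w
        (ball_subset_ball hϱ2 hw)).1
      rw [← qo_succ] at h1
      exact h1
  have h0ϱ : (0 : Fin k → ℂ) ∈ ball (0 : Fin k → ℂ) ϱ := mem_ball_self hϱ0
  have hXd : DifferentiableAt ℂ X 0 := hfami.dif.differentiableAt (isOpen_ball.mem_nhds h0ϱ)
  have hcd : ∀ i, DifferentiableAt ℂ (c i) 0 := fun i =>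
    (hfami.cdf i).differentiableAt (isOpen_ball.mem_nhds h0ϱ)
  refine ⟨k, fun i => (c₀ i, 1), m, wr x (1, 0), hn.1, hf.pos, fun i => one_ne _, ?_,
    hWRF d k x m c₀ hd hf.deg hf.fac, fun φ ε hε => ?_⟩
  · intro i j hij h0
    apply hij
    apply hf.inj
    simp only [cr, mul_one, one_mul] at h0
    exact sub_eq_zero.1 h0
  · -- closeness
    have hcl : ∀ᶠ s in 𝓝 (0 : Fin k → ℂ), ‖X s - x‖ < ε := by
      have h1 : Tendsto (fun s => ‖X s - x‖) (𝓝 0) (𝓝 ‖X 0 - x‖) :=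
        (hXd.continuousAt.sub continuousAt_const).norm
      rw [hX.at0, sub_self, norm_zero] at h1
      exact h1.eventually_lt_const hε
    have hcc : ∀ i, ∀ᶠ s in 𝓝 (0 : Fin k → ℂ), cho (c i s, 1) (c₀ i, 1) < ε := by
      intro i
      have h2 : ContinuousAt (fun s : Fin k → ℂ => cho (c i s, 1) (c₀ i, 1)) 0 := by
        unfold cho
        refine ContinuousAt.div ?_ ?_ ?_
        · unfold cr
          exact (((hcd i).continuousAt.mul continuousAt_const).sub continuousAt_const).norm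
        · unfold N2
          refine Real.continuous_sqrt.continuousAt.comp ?_
          refine ContinuousAt.mul ?_ continuousAt_const
          exact ((hcd i).continuousAt.norm.pow 2).add continuousAt_const
        · refine (Real.sqrt_pos.2 (mul_pos (N2_pos (one_ne _)) (N2_pos (one_ne _)))).ne'
      have h1 : Tendsto (fun s : Fin k → ℂ => cho (c i s, 1) (c₀ i, 1)) (𝓝 0)
          (𝓝 (cho (c i 0, 1) (c₀ i, 1))) := h2
      have h3 : cho (c i 0, 1) (c₀ i, 1) = 0 := by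
        rw [hX.c0 i]
        unfold cho cr
        simp
      rw [h3] at h1
      exact h1.eventually_lt_const hε
    have hne : ∀ i j, i ≠ j → ∀ᶠ s in 𝓝 (0 : Fin k → ℂ), c i s ≠ c j s := by
      intro i j hij
      have h1 : ContinuousAt (fun s => c i s - c j s) 0 :=
        (hcd i).continuousAt.sub (hcd j).continuousAt
      have h2 : c i 0 - c j 0 ≠ 0 := by
        rw [hX.c0, hX.c0]
        exact sub_ne_zero.2 fun h => hij (hf.inj h)
      filter_upwards [h1.eventually_ne h2] with s hs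
      exact sub_ne_zero.1 hs
    have hne' : ∀ᶠ s in 𝓝 (0 : Fin k → ℂ), ∀ i j, i ≠ j → c i s ≠ c j s := by
      refine Filter.eventually_all.2 fun i => Filter.eventually_all.2 fun j => ?_
      by_cases hij : i = j
      · exact Filter.Eventually.of_forall fun s h => absurd hij h
      · filter_upwards [hne i j hij] with s hs _
        exact hs
    obtain ⟨r, hr, hr'⟩ := Metric.eventually_nhds_iff_ball.1
      (hcl.and ((Filter.eventually_all.2 hcc).and hne'))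
    obtain ⟨s, hs1, hs2, hs3⟩ := asm_sol hTRAN hCLOSE hTG3 hTOP hSOLVE3 hconc φ hr
    have hsr : s ∈ ball (0 : Fin k → ℂ) r := mem_ball_zero_iff.2 hs1
    have hsϱ : s ∈ ball (0 : Fin k → ℂ) ϱ := mem_ball_zero_iff.2 hs2
    obtain ⟨hA, hB, hC⟩ := hr' s hsr
    have hNDs := hfami.nd s hsϱ
    have hdeg : ∑ i, m i = 2 * d - 2 := hf.deg
    refine ⟨X s, fun i => (c i s, 1), wr (X s) (1, 0), hA, hNDs, hfami.ne s hsϱ,
      fun i => one_ne _, ?_, hWRF d k (X s) m (fun i => c i s) hd hdeg (hfami.fac s hsϱ), hB, ?_⟩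
    · intro i j hij h0
      apply hC i j hij
      simp only [cr, mul_one, one_mul] at h0
      exact sub_eq_zero.1 h0
    · intro i
      obtain ⟨n, hn1, hn2⟩ := hs3 i
      have hv := hconc.val i s hsϱ
      have hpar : ∀ j : ℕ, cr ((hF (X s))^[j + 1] (c i s, 1))
          ((hF (X s))^[j] (iot (tau (qo x (c₀ i) 1)) (cv x X (c₀ i) (c i) s))) = 0 := by
        intro j
        have h4 := cr_iter (X s) j (hNDs.iter_ne 1 (one_ne (c i s))) (iot_ne _ _) hv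
        rw [Function.iterate_succ_apply]
        exact h4
      refine ⟨n + 1, by omega, ?_, ?_⟩
      · exact cr_trans (hNDs.iter_ne n (iot_ne _ _)) (hpar n) hn2
      · intro j hj1 hj2 h0
        obtain ⟨j', rfl⟩ : ∃ j', j = j' + 1 := ⟨j - 1, by omega⟩
        refine hn1 j' (by omega) ?_
        refine wr_of_par hd (X s) (hNDs.iter_ne j' (iot_ne _ _))
          (hNDs.iter_ne (j' + 1) (one_ne (c i s))) ?_ h0
        have h5 := hpar j'
        simp only [cr] at h5 ⊢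
        linear_combination -h5

end Pool.Agent.H207.BT
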