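import Pool.Agent.H207.BT.Stm6
import Pool.Agent.H211.HY.AsmE

/-!
# Project BT: assembly, with times
-/

set_option autoImplicit false

open Topology Filter Metric Set MeasureTheory Polynomial

namespace Pool.Agent.H207.BT

open Pool.Agent.H790R3.RB Pool.Agent.H211.HY

theorem asm_settT (hTRAN : S_TRANT) (hCLOSE : S_CLOSET) (hTG3 : S_TG3T) {d k : ℕ} {x₀ : CV d}
    {c₀ : Fin k → ℂ} {m : Fin k → ℕ} {X : (Fin k → ℂ) → CV d} {c : Fin k → (Fin k → ℂ) → ℂ}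
    {ρ' C K μ : ℝ} {κ : Fin k → ℂ} {xx : Fin k → ℕ → ℝ} (h : Conc x₀ c₀ m X c ρ' C K μ κ xx)
    (g : Fin k) : ∃ η B : ℝ, SettT (fun i => cf x₀ X (c₀ i)) (fun i => cv x₀ X (c₀ i) (c i))
      (fun i => cz x₀ (c₀ i)) xx ρ' C K μ κ m (RPT x₀ X c₀ c g) η B := by
  obtain ⟨η, hη, B, hB, hcl⟩ := hCLOSE d k x₀ c₀ m X c ρ' C K μ κ xx h
  refine ⟨η, B, ⟨h.good, h.fac.pos, hη, hB, ?_, ?_, ?_, ?_⟩⟩
  · rintro M M' i n s u hM ⟨n', hn, h1⟩
    exact ⟨n', hn.trans hM, h1⟩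
  · intro M i N s w hs hn hR
    exact hTRAN d k x₀ c₀ m X c ρ' C K μ κ xx h g M i N s w hs hn hR
  · intro i n hin
    exact hcl g i n hin
  · intro ε hε hε1
    obtain ⟨ρ₁, hρ₁, -, L, M, hq⟩ := hTG3 d k x₀ c₀ m X c ρ' h.hd h.nd h.ce h.leo h.nrm.1 h.fac
      h.fami ε hε hε1
    refine ⟨ρ₁, hρ₁, L, M, fun i n => ?_⟩
    obtain ⟨q, hq1, hq2, hq3, hq4⟩ := hq g (tau (qo x₀ (c₀ i) (n + 1))) (cz x₀ (c₀ i) n) norm_zc
    exact ⟨q, hq1, hq2, hq3, hq4⟩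

/-- the solution, in the concrete setting -/
theorem asm_solT (hTRAN : S_TRANT) (hCLOSE : S_CLOSET) (hTG3 : S_TG3T) (hTOP : S_TOPT)
    (hSOLVE3 : S_SOLVE3T) {d k : ℕ} {x₀ : CV d}
    {c₀ : Fin k → ℂ} {m : Fin k → ℕ} {X : (Fin k → ℂ) → CV d} {c : Fin k → (Fin k → ℂ) → ℂ}
    {ρ' C K μ : ℝ} {κ : Fin k → ℂ} {xx : Fin k → ℕ → ℝ} (h : Conc x₀ c₀ m X c ρ' C K μ κ xx)
    (φ : Fin k → Fin k) : ∃ B T₀ : ℕ, ∀ T ≥ T₀, ∃ s : Fin k → ℂ, ‖s‖ ≤ (1 / 2 : ℝ) ^ T ∧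
      ‖s‖ < ρ' ∧ ∀ i, RPT x₀ X c₀ c (φ i) (B * T) i 0 s (cv x₀ X (c₀ i) (c i) s) := by
  have hk : 0 < k := h.fac.kpos h.hd
  have : Nonempty (Fin k) := ⟨⟨0, hk⟩⟩
  have hρ' : 0 < ρ' := h.fami.ρ0
  choose η B hS using fun g : Fin k => asm_settT hTRAN hCLOSE hTG3 h g
  have hall : ∀ σ > (0 : ℝ), ∃ A > (0 : ℝ), ∀ ε > (0 : ℝ), ∃ r₀ > (0 : ℝ), ∃ E > (0 : ℝ),
        ∀ (i : Fin k) (N : ℕ)
        (r : ℝ), 0 < r → r ≤ r₀ → r * ‖DD (cf x₀ X (c₀ i)) (cz x₀ (c₀ i)) N‖ ≤ 1 →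
        (ε ≤ r * ‖DD (cf x₀ X (c₀ i)) (cz x₀ (c₀ i)) N‖ ∨
          A * xx i N ≤ r * ‖DD (cf x₀ X (c₀ i)) (cz x₀ (c₀ i)) N‖) →
        ∃ (q : (Fin k → ℂ) → ℂ) (M : ℕ), (M : ℝ) ≤ E * (1 + Real.log (1 / r)) ∧
          (∀ s ∈ ball (0 : Fin k → ℂ) r, RPT x₀ X c₀ c (φ i) M i N s (q s)) ∧
          (∀ s ∈ ball (0 : Fin k → ℂ) r, ∀ s' ∈ ball (0 : Fin k → ℂ) r,
            ‖q s - q s'‖ ≤ σ * ‖DD (cf x₀ X (c₀ i)) (cz x₀ (c₀ i)) N‖ * ‖s - s'‖) ∧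
          ‖q 0 - cz x₀ (c₀ i) N‖ ≤ σ * (r * ‖DD (cf x₀ X (c₀ i)) (cz x₀ (c₀ i)) N‖) := by
    intro σ hσ
    choose A hA hA2 using fun g : Fin k => hTOP k _ _ _ _ _ _ _ _ _ _ _ _ _ (hS g) σ hσ
    obtain ⟨g₁, hg₁⟩ := Finite.exists_max A
    refine ⟨A g₁, hA g₁, fun ε hε => ?_⟩
    choose r₀ hr₀ E hE hr₀2 using fun g : Fin k => hA2 g ε hε
    obtain ⟨g₂, hg₂⟩ := Finite.exists_min r₀
    obtain ⟨g₃, hg₃⟩ := Finite.exists_max E
    refine ⟨min (r₀ g₂) 1, lt_min (hr₀ g₂) one_pos, E g₃, hE g₃, fun i N r hr hrr h1 h2 => ?_⟩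
    have h2' : ε ≤ r * ‖DD (cf x₀ X (c₀ i)) (cz x₀ (c₀ i)) N‖ ∨
        A (φ i) * xx i N ≤ r * ‖DD (cf x₀ X (c₀ i)) (cz x₀ (c₀ i)) N‖ := by
      rcases h2 with h2 | h2
      · exact Or.inl h2
      · exact Or.inr ((mul_le_mul_of_nonneg_right (hg₁ _) ((h.good i).xx N).1.le).trans h2)
    obtain ⟨q, M, hM, hq⟩ := hr₀2 (φ i) i N r hr ((hrr.trans (min_le_left _ _)).trans (hg₂ _)) h1 h2'
    refine ⟨q, M, hM.trans ?_, hq⟩
    refine mul_le_mul_of_nonneg_right (hg₃ _) ?_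
    have : 0 ≤ Real.log (1 / r) := by
      refine Real.log_nonneg ?_
      rw [le_div_iff₀ hr, one_mul]
      exact hrr.trans (min_le_right _ _)
    linarith
  obtain ⟨B₀, T₀, hsol⟩ := hSOLVE3 k (fun i => cf x₀ X (c₀ i)) (fun i => cv x₀ X (c₀ i) (c i))
    (fun i => cz x₀ (c₀ i)) xx ρ' C K μ κ h.good
    (fun M i N s u => RPT x₀ X c₀ c (φ i) M i N s u) hall
  obtain ⟨T₁, hT₁⟩ := exists_pow_lt_of_lt_one hρ' (by norm_num : (1 / 2 : ℝ) < 1)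
  refine ⟨2 * B₀, max T₀ T₁, fun T hT => ?_⟩
  obtain ⟨s, hs, hsol'⟩ := hsol T ((le_max_left _ _).trans hT)
  have hs2 : ‖s‖ < ρ' := by
    refine (hs.trans ?_).trans_lt hT₁
    exact pow_le_pow_of_le_one (by norm_num) (by norm_num) ((le_max_right _ _).trans hT)
  refine ⟨s, hs, hs2, fun i => ?_⟩
  obtain ⟨N, hNB, M, hMB, hN1, hN2⟩ := hsol' i
  obtain ⟨n, hn, h1⟩ := hTRAN d k x₀ c₀ m X c ρ' C K μ κ xx h (φ i) M i N s (cv x₀ X (c₀ i) (c i))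
    hs2 hN2 hN1
  refine ⟨n, ?_, h1⟩
  have e1 : 2 * B₀ * T = B₀ * T + B₀ * T := by ring
  omega

/-- all types, in the normalized situation, with a rate -/
theorem asm_typT (hTRAN : S_TRANT) (hCLOSE : S_CLOSET) (hTG3 : S_TG3T) (hTOP : S_TOPT)
    (hSOLVE3 : S_SOLVE3T) (hWRF : S_WRF) (hDCR : S_DCR) (hLEO : S_LEO)
    (hFACT : S_FACT) (hUNIF : S_UNIF) (hDIST : S_DIST) (hFUNC : S_FUNC)
    (hFAM : S_FAM) (hORBS : S_ORBS) (hDUAL : S_DUAL) (hINV : S_INV) (hL1 : S_L1)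
    (hZERO : S_ZERO) (hLINE : S_LINE) {d : ℕ} {x : CV d} (hx : Hyp x) (hn : Nrm x) : TypT x := by
  have hd := hx.hd
  have hdcr : DCR x := hDCR d x hd hx.nd hx.ce hx.jul
  have hleo : LEO x := hLEO d x hd hx.nd hx.ce hdcr
  obtain ⟨k, c₀, m, hf⟩ := hFACT d x hd hn.1
  obtain ⟨b, hb1, hb2⟩ := asm_dir hINV hL1 hZERO hLINE hORBS hDUAL hx hn hleo hf
  have hQ : ∀ i, (pol x 1).eval (c₀ i) ≠ 0 := by
    intro i
    have h1 := hn.2 (c₀ i, 1) (one_ne _) (hf.crit i) 1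
    rw [Function.iterate_one, hF_pol] at h1
    exact h1
  obtain ⟨ρ, X, c, hX, hXb⟩ := hFAM d k x c₀ m b hd hx.nd hn.1 hf hQ hb1
  obtain ⟨ρ', C, K, μ, κ, xx, hρ', hρ'ρ, hgood, hstep, hval, hxx⟩ :=
    good_of hUNIF hDIST hFUNC hx hn hf hX (fun i l => by rw [hXb l]; exact hb2 i l)
  obtain ⟨ρU, hρU, hρUρ, MU, hU⟩ := hUNIF d k x X ρ hd hx.nd hX.ρ0 hX.dif hX.at0
  set ϱ := min ρ' ρU with hϱ
  have hϱ0 : 0 < ϱ := lt_min hρ' hρU
  have hϱ1 : ϱ ≤ ρ' := min_le_left _ _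
  have hϱ2 : ϱ ≤ ρU := min_le_right _ _
  have hϱρ : ϱ ≤ ρ := hϱ1.trans hρ'ρ
  have hfami : Fami x k c₀ m X c ϱ :=
    ⟨hϱ0, hX.dif.mono (ball_subset_ball hϱρ), hX.at0,
      fun i => (hX.cdf i).mono (ball_subset_ball hϱρ), hX.c0,
      fun s hs => hX.nd s (ball_subset_ball hϱρ hs), fun s hs => hX.ne s (ball_subset_ball hϱρ hs),
      fun s hs => hX.fac s (ball_subset_ball hϱρ hs)⟩
  have hconc : Conc x c₀ m X c ϱ C K μ κ xx := by
    refine ⟨hd, hx.nd, hx.ce, hleo, hn, hf, hfami, fun i => ?_, ?_, ?_, fun i n => (hxx i n).2, ?_⟩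
    · have hg := hgood i
      exact
        { ρ0 := hϱ0
          C1 := hg.C1
          c0 := hg.c0
          μ1 := hg.μ1
          κ0 := hg.κ0
          v0 := hg.v0
          vd := hg.vd.mono (ball_subset_ball hϱ1)
          vb := fun s hs => hg.vb s (ball_subset_ball hϱ1 hs)
          fz := hg.fz
          fd := fun n => (hg.fd n).mono (Set.prod_mono (ball_subset_ball hϱ1) (ball_subset_ball hϱ1))
          fb := fun n s hs w hw => hg.fb n s (ball_subset_ball hϱ1 hs) w (ball_subset_ball hϱ1 hw)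
          xx := hg.xx
          dx := hg.dx
          ds := fun n s hs w hw => hg.ds n s (ball_subset_ball hϱ1 hs) w (ball_subset_ball hϱ1 hw)
          gr := hg.gr
          fn := hg.fn }
    · exact fun i n s hs w hw =>
        hstep i n s (ball_subset_ball hϱ1 hs) w (ball_subset_ball hϱ1 hw)
    · exact fun i s hs => hval i s (ball_subset_ball hϱ1 hs)
    · intro i n s hs w hw
      have h1 := (hU (qo x (c₀ i) (n + 1)) (qo_ne hx.nd _ _) s (ball_subset_ball hϱ2 hs) w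
        (ball_subset_ball hϱ2 hw)).1
      rw [← qo_succ] at h1
      exact h1
  have h0ϱ : (0 : Fin k → ℂ) ∈ ball (0 : Fin k → ℂ) ϱ := mem_ball_self hϱ0
  have hXd : DifferentiableAt ℂ X 0 := hfami.dif.differentiableAt (isOpen_ball.mem_nhds h0ϱ)
  have hcd : ∀ i, DifferentiableAt ℂ (c i) 0 := fun i =>
    (hfami.cdf i).differentiableAt (isOpen_ball.mem_nhds h0ϱ)
  refine ⟨k, fun i => (c₀ i, 1), m, wr x (1, 0), hn.1, hf.pos, fun i => one_ne _, ?_,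
    hWRF d k x m c₀ hd hf.deg hf.fac, fun φ => ?_⟩
  · intro i j hij h0
    apply hij
    apply hf.inj
    simp only [cr, mul_one, one_mul] at h0
    exact sub_eq_zero.1 h0
  · -- closeness
    obtain ⟨K₀, hK₀, hcl⟩ : ∃ K₀ : ℝ, 0 < K₀ ∧
        ∀ᶠ s in 𝓝 (0 : Fin k → ℂ), ‖X s - x‖ ≤ K₀ * ‖s‖ := by
      obtain ⟨K₀, hK₀, h⟩ := hXd.isBigO_sub.exists_pos
      refine ⟨K₀, hK₀, ?_⟩
      filter_upwards [h.bound] with s hs
      rw [hX.at0, sub_zero] at hs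
      exact hs
    have hcc : ∀ i, ∃ K₁ : ℝ, 0 < K₁ ∧
        ∀ᶠ s in 𝓝 (0 : Fin k → ℂ), cho (c i s, 1) (c₀ i, 1) ≤ K₁ * ‖s‖ := by
      intro i
      obtain ⟨K₁, hK₁, h⟩ := (hcd i).isBigO_sub.exists_pos
      refine ⟨K₁, hK₁, ?_⟩
      filter_upwards [h.bound] with s hs
      rw [hX.c0, sub_zero] at hs
      refine le_trans ?_ hs
      unfold cho
      have h1 : ∀ a : ℂ, (1 : ℝ) ≤ N2 (a, 1) := by
        intro a
        unfold N2
        simp only [norm_one, one_pow]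
        have := sq_nonneg ‖a‖
        linarith
      have h2 : (1 : ℝ) ≤ Real.sqrt (N2 (c i s, 1) * N2 (c₀ i, 1)) := by
        rw [Real.one_le_sqrt]
        nlinarith [h1 (c i s), h1 (c₀ i)]
      have h3 : ‖cr (c i s, 1) (c₀ i, 1)‖ = ‖c i s - c₀ i‖ := by
        simp only [cr, mul_one, one_mul]
      rw [h3]
      exact div_le_self (norm_nonneg _) h2
    choose K₁ hK₁ hcc' using hcc
    have hne : ∀ i j, i ≠ j → ∀ᶠ s in 𝓝 (0 : Fin k → ℂ), c i s ≠ c j s := by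
      intro i j hij
      have h1 : ContinuousAt (fun s => c i s - c j s) 0 :=
        (hcd i).continuousAt.sub (hcd j).continuousAt
      have h2 : c i 0 - c j 0 ≠ 0 := by
        rw [hX.c0, hX.c0]
        exact sub_ne_zero.2 fun h => hij (hf.inj h)
      filter_upwards [h1.eventually_ne h2] with s hs
      exact sub_ne_zero.1 hs
    have hne' : ∀ᶠ s in 𝓝 (0 : Fin k → ℂ), ∀ i j, i ≠ j → c i s ≠ c j s := by
      refine Filter.eventually_all.2 fun i => Filter.eventually_all.2 fun j => ?_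
      by_cases hij : i = j
      · exact Filter.Eventually.of_forall fun s h => absurd hij h
      · filter_upwards [hne i j hij] with s hs _
        exact hs
    obtain ⟨r, hr, hr'⟩ := Metric.eventually_nhds_iff_ball.1
      (hcl.and ((Filter.eventually_all.2 hcc').and hne'))
    obtain ⟨B, T₀, hsol⟩ := asm_solT hTRAN hCLOSE hTG3 hTOP hSOLVE3 hconc φ
    obtain ⟨T₁, hT₁⟩ := exists_pow_lt_of_lt_one hr (by norm_num : (1 / 2 : ℝ) < 1)
    refine ⟨B + 1, max (max T₀ T₁) 1, K₀ + ∑ i, K₁ i, fun T hT => ?_⟩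
    have hTT₀ : T₀ ≤ T := ((le_max_left _ _).trans (le_max_left _ _)).trans hT
    have hTT₁ : T₁ ≤ T := ((le_max_right _ _).trans (le_max_left _ _)).trans hT
    have hT1 : 1 ≤ T := (le_max_right _ _).trans hT
    obtain ⟨s, hs1, hs2, hs3⟩ := hsol T hTT₀
    have hsr : s ∈ ball (0 : Fin k → ℂ) r := by
      refine mem_ball_zero_iff.2 ((hs1.trans ?_).trans_lt hT₁)
      exact pow_le_pow_of_le_one (by norm_num) (by norm_num) hTT₁
    have hsϱ : s ∈ ball (0 : Fin k → ℂ) ϱ := mem_ball_zero_iff.2 hs2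
    obtain ⟨hA, hB, hC⟩ := hr' s hsr
    have hNDs := hfami.nd s hsϱ
    have hdeg : ∑ i, m i = 2 * d - 2 := hf.deg
    have hsum : ∀ i, K₁ i ≤ ∑ i, K₁ i := fun i =>
      Finset.single_le_sum (f := K₁) (fun j _ => (hK₁ j).le) (Finset.mem_univ i)
    have hsum0 : 0 ≤ ∑ i, K₁ i := Finset.sum_nonneg fun j _ => (hK₁ j).le
    refine ⟨X s, fun i => (c i s, 1), wr (X s) (1, 0), ?_, hNDs, hfami.ne s hsϱ,
      fun i => one_ne _, ?_, hWRF d k (X s) m (fun i => c i s) hd hdeg (hfami.fac s hsϱ),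
      fun i => ?_, ?_⟩
    · refine hA.trans ?_
      exact mul_le_mul (by linarith) hs1 (norm_nonneg _) (by linarith)
    · intro i j hij h0
      apply hC i j hij
      simp only [cr, mul_one, one_mul] at h0
      exact sub_eq_zero.1 h0
    · refine (hB i).trans ?_
      exact mul_le_mul (by linarith [hsum i]) hs1 (norm_nonneg _) (by linarith)
    · intro i
      obtain ⟨n, hnB, hn1, hn2⟩ := hs3 i
      have hv := hconc.val i s hsϱ
      have hpar : ∀ j : ℕ, cr ((hF (X s))^[j + 1] (c i s, 1))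
          ((hF (X s))^[j] (iot (tau (qo x (c₀ i) 1)) (cv x X (c₀ i) (c i) s))) = 0 := by
        intro j
        have h4 := cr_iter (X s) j (hNDs.iter_ne 1 (one_ne (c i s))) (iot_ne _ _) hv
        rw [Function.iterate_succ_apply]
        exact h4
      refine ⟨n + 1, by omega, ?_, ?_, ?_⟩
      · have e1 : (B + 1) * T = B * T + T := by ring
        omega
      · exact cr_trans (hNDs.iter_ne n (iot_ne _ _)) (hpar n) hn2
      · intro j hj1 hj2 h0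
        obtain ⟨j', rfl⟩ : ∃ j', j = j' + 1 := ⟨j - 1, by omega⟩
        refine hn1 j' (by omega) ?_
        refine wr_of_par hd (X s) (hNDs.iter_ne j' (iot_ne _ _))
          (hNDs.iter_ne (j' + 1) (one_ne (c i s))) ?_ h0
        have h5 := hpar j'
        simp only [cr] at h5 ⊢
        linear_combination -h5

end Pool.Agent.H207.BT
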