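import Pool.Agent.H207.BT.Asm
import Pool.Agent.H211.HY.Fin
import Pool.Agent.H87.BT207.FOL2
import Pool.Agent.H383.BT207.PULL
import Pool.Agent.H685.BT207.SCALE3
import Pool.Agent.H980.BT207.SOLVE3
import Pool.Agent.H30.BT207.DXM
import Pool.Agent.H733.BT207.ROOT
import Pool.Agent.H137.BT207.TG3
import Pool.Agent.H356.BT207.REAL1
import Pool.Agent.H250.BT207.VTR
import Pool.Agent.H404.BT207.TOP
import Pool.Agent.H965.BT207.TRAN
import Pool.Agent.H415.BT207.CLOSE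
import Pool.Agent.H813.BT207.NORM5
import Pool.Agent.H928.BT207.WRF

/-! Project BT: the pieces put together -/

set_option autoImplicit false

namespace Pool.Agent.H207.BT

open Pool.Agent.H790R3.RB Pool.Agent.H211.HY

theorem q_FOL2 : S_FOL2 := Pool.Agent.H87.BT207.t_FOL2 p_FOL
theorem q_PULL : S_PULL := Pool.Agent.H383.BT207.PULL.t_PULL q_FOL2
theorem q_SCALE3 : S_SCALE3 := Pool.Agent.H685.BT207.t_SCALE3
theorem q_SOLVE3 : S_SOLVE3 := Pool.Agent.H980.BT207.t_SOLVE3 p_SCALE q_FOL2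
theorem q_DXM : S_DXM := Pool.Agent.H30.BT207.t_DXM p_DER
theorem q_ROOT : S_ROOT := Pool.Agent.H733.BT207.t_ROOT p_DER
theorem q_TG3 : S_TG3 := Pool.Agent.H137.BT207.t_TG3
theorem q_VT : S_VT := Pool.Agent.H250.BT207.t_VTR q_PULL q_SCALE3 Pool.Agent.H356.BT207.t_REAL1
theorem q_TOP : S_TOP := Pool.Agent.H404.BT207.t_TOP q_VT
theorem q_TRAN : S_TRAN := Pool.Agent.H965.BT207.t_TRAN p_DER
theorem q_CLOSE : S_CLOSE := Pool.Agent.H415.BT207.t_CLOSE q_DXM q_ROOT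
theorem q_NORM5 : S_NORM5 := Pool.Agent.H813.BT207.t_NORM5
theorem q_WRF : S_WRF := Pool.Agent.H928.BT207.t_WRF

/-- **All combinatorial types near Collet-Eckmann maps.** -/
theorem main_typ {d : ℕ} {x : CV d} (hx : Hyp0 x) : TypP x := by
  refine q_NORM5 d x hx fun y hy hny => ?_
  exact asm_typ q_TRAN q_CLOSE q_TG3 q_TOP q_SOLVE3 q_WRF p_DCR p_LEO p_FACT p_UNIF p_DIST p_FUNC
    p_FAM p_ORBS p_DUAL p_INV p_L1 p_ZERO p_LINE (asm_jul p_LEOJ p_DEEPJ p_NFE p_FACT hy hny) hny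

end Pool.Agent.H207.BT
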