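import Pool.Agent.H207.BT.Stm6
import Pool.Agent.H211.HY.Fin5

/-!
# Project BT: from the rate in powers of 2 to exponentials of the time, open sets
-/

set_option autoImplicit false

open Topology Filter Metric Set MeasureTheory Polynomial

namespace Pool.Agent.H207.BT

open Pool.Agent.H790R3.RB Pool.Agent.H211.HY

/-- all types, with the rate as exponential of the time, and balls of hyperbolic maps -/
theorem rateT {d : ℕ} {x : CV d} (hd : 2 ≤ d) (hx : ND x) (h : TypT x) :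
    ∃ (k : ℕ) (c₀ : Fin k → ℂ × ℂ) (m : Fin k → ℕ) (a₀ : ℂ), a₀ ≠ 0 ∧ (∀ i, 1 ≤ m i) ∧
    (∀ i, c₀ i ≠ 0) ∧ (∀ i j, i ≠ j → cr (c₀ i) (c₀ j) ≠ 0) ∧
    (∀ p, wr x p = a₀ * ∏ i, cr p (c₀ i) ^ m i) ∧
    ∀ φ : Fin k → Fin k, ∃ a > (0 : ℝ), ∃ A : ℝ, ∃ n₀ : ℕ, ∀ n ≥ n₀,
      ∃ (z : CV d) (c' : Fin k → ℂ × ℂ) (a' : ℂ),
      ‖z - x‖ ≤ Real.exp (-(a * n)) ∧ ND z ∧ a' ≠ 0 ∧ (∀ i, c' i ≠ 0) ∧
      (∀ i j, i ≠ j → cr (c' i) (c' j) ≠ 0) ∧ (∀ p, wr z p = a' * ∏ i, cr p (c' i) ^ m i) ∧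
      (∀ i, cho (c' i) (c₀ i) ≤ Real.exp (-(a * n))) ∧
      (∀ i, ∃ l : ℕ, 1 ≤ l ∧ l ≤ n ∧ cr ((hF z)^[l] (c' i)) (c' (φ i)) = 0 ∧
        ∀ j : ℕ, 1 ≤ j → j < l → wr z ((hF z)^[j] (c' i)) ≠ 0) ∧
      ∀ w : CV d, ‖w - z‖ ≤ Real.exp (-(A * n)) → ND w ∧ HypTop (sp w) := by
  obtain ⟨k, c₀, m, a₀, ha₀, hm, hc₀, hcc₀, hfac₀, H⟩ := h
  refine ⟨k, c₀, m, a₀, ha₀, hm, hc₀, hcc₀, hfac₀, fun φ => ?_⟩
  obtain ⟨B, T₀, K, hr⟩ := H φ
  obtain ⟨η, hη, C, ho⟩ := p_OPENQ d x hd hx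
  have hl2 : 0 < Real.log 2 := Real.log_pos (by norm_num)
  have hB : (0 : ℝ) < (B : ℝ) + 1 := by positivity
  have hhalf : ∀ t : ℕ, (1 / 2 : ℝ) ^ t = Real.exp (-(Real.log 2 * t)) := by
    intro t
    rw [← Real.rpow_natCast, Real.rpow_def_of_pos (by norm_num)]
    congr 1
    rw [one_div, Real.log_inv]
    ring
  set a : ℝ := Real.log 2 / (2 * (B + 1)) with ha
  have ha0 : 0 < a := by positivity
  have hlim : Tendsto (fun n : ℕ => |K| * 2 * Real.exp (-(a * n))) atTop (𝓝 0) := by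
    have h1 : Tendsto (fun n : ℕ => Real.exp (-(a * n))) atTop (𝓝 0) := by
      refine Real.tendsto_exp_neg_atTop_nhds_zero.comp ?_
      exact Tendsto.const_mul_atTop ha0 tendsto_natCast_atTop_atTop
    have h2 := h1.const_mul (|K| * 2)
    rwa [mul_zero] at h2
  have hev1 := hlim.eventually_lt_const (zero_lt_one)
  have hev2 : ∀ᶠ n : ℕ in atTop, Real.exp (-(a * n)) < η := by
    have h1 : Tendsto (fun n : ℕ => Real.exp (-(a * n))) atTop (𝓝 0) := by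
      refine Real.tendsto_exp_neg_atTop_nhds_zero.comp ?_
      exact Tendsto.const_mul_atTop ha0 tendsto_natCast_atTop_atTop
    exact h1.eventually_lt_const hη
  obtain ⟨n₁, hn₁⟩ := eventually_atTop.1 (hev1.and hev2)
  refine ⟨a, ha0, Real.log 2 * C, max n₁ (max 1 ((B + 1) * T₀)), fun n hn => ?_⟩
  have hn1 : n₁ ≤ n := (le_max_left _ _).trans hn
  have hn2 : 1 ≤ n := ((le_max_left _ _).trans (le_max_right _ _)).trans hn
  have hn3 : (B + 1) * T₀ ≤ n := ((le_max_right _ _).trans (le_max_right _ _)).trans hn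
  set T : ℕ := n / (B + 1) with hT
  have hTT : T₀ ≤ T := (Nat.le_div_iff_mul_le (by omega)).2 (by rw [mul_comm]; exact hn3)
  have hTn : (B + 1) * T ≤ n := by rw [mul_comm]; exact Nat.div_mul_le_self n (B + 1)
  have hnT : n < (B + 1) * (T + 1) := by
    rw [mul_comm]
    exact Nat.lt_mul_of_div_lt (by omega) (by omega)
  obtain ⟨z, c', a', h1, h2, ha', hc', hcc', hfac', hcho, hhit⟩ := hr T hTT
  have hnT' : (n : ℝ) < (B + 1) * (T + 1) := by exact_mod_cast hnT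
  have hle : K * (1 / 2 : ℝ) ^ T ≤ Real.exp (-(a * n)) := by
    have e1 : (1 / 2 : ℝ) ^ T ≤ 2 * Real.exp (-(2 * a * n)) := by
      rw [hhalf]
      have e2 : (2 : ℝ) = Real.exp (Real.log 2) := (Real.exp_log (by norm_num)).symm
      have e3 : 2 * Real.exp (-(2 * a * n)) = Real.exp (Real.log 2 + -(2 * a * n)) := by
        rw [Real.exp_add, Real.exp_log (by norm_num)]
      rw [e3]
      refine Real.exp_le_exp.2 ?_
      have e4 : 2 * a * n = Real.log 2 * (n / (B + 1)) := by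
        rw [ha]
        field_simp
      rw [e4]
      have e5 : (n : ℝ) / (B + 1) ≤ T + 1 := by
        rw [div_le_iff₀ hB]
        nlinarith
      nlinarith
    have e6 : Real.exp (-(2 * a * n)) = Real.exp (-(a * n)) * Real.exp (-(a * n)) := by
      rw [← Real.exp_add]
      congr 1
      ring
    have e7 := (hn₁ n hn1).1
    calc K * (1 / 2 : ℝ) ^ T
        ≤ |K| * (1 / 2 : ℝ) ^ T := mul_le_mul_of_nonneg_right (le_abs_self K) (by positivity)
      _ ≤ |K| * (2 * Real.exp (-(2 * a * n))) := mul_le_mul_of_nonneg_left e1 (abs_nonneg K)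
      _ = (|K| * 2 * Real.exp (-(a * n))) * Real.exp (-(a * n)) := by rw [e6]; ring
      _ ≤ 1 * Real.exp (-(a * n)) := mul_le_mul_of_nonneg_right e7.le (Real.exp_pos _).le
      _ = _ := one_mul _
  have h5 : ‖z - x‖ ≤ Real.exp (-(a * n)) := h1.trans hle
  have hBT : B * T ≤ n := by nlinarith
  have hcw : ∀ i, wr z (c' i) = 0 := by
    intro i
    rw [hfac']
    have h6 : ∏ j, cr (c' i) (c' j) ^ m j = 0 := by
      refine Finset.prod_eq_zero (Finset.mem_univ i) ?_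
      have h7 : cr (c' i) (c' i) = 0 := by
        simp only [cr]
        ring
      rw [h7, zero_pow]
      have := hm i
      omega
    rw [h6, mul_zero]
  have h6 : PCFn z n := by
    intro p hp hw
    rw [hfac'] at hw
    obtain ⟨i, -, hi⟩ := Finset.prod_eq_zero_iff.1 ((mul_eq_zero.1 hw).resolve_left ha')
    have hi' : cr p (c' i) = 0 := eq_zero_of_pow_eq_zero hi
    obtain ⟨l, hl1, hl2, hl3, -⟩ := hhit i
    refine ⟨l, hl1, hl2.trans hBT, c' (φ i), hc' _, hcw _, ?_⟩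
    exact cr_trans (h2.iter_ne l (hc' i)) (cr_iter z l hp (hc' i) hi') hl3
  refine ⟨z, c', a', h5, h2, ha', hc', hcc', hfac', fun i => (hcho i).trans hle, fun i => ?_,
    fun w hw => ?_⟩
  · obtain ⟨l, hl1, hl2, hl3, hl4⟩ := hhit i
    exact ⟨l, hl1, hl2.trans hBT, hl3, hl4⟩
  · refine ho n hn2 z (h5.trans (hn₁ n hn1).2.le) h6 w ?_
    rw [hhalf]
    refine hw.trans_eq ?_
    congr 1
    push_cast
    ring

end Pool.Agent.H207.BT
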