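import Pool.Agent.H207.BT.Fin
import Pool.Agent.H207.BT.AsmT
import Pool.Agent.H207.BT.RateT
import Pool.Agent.H30.BT207.TG3T
import Pool.Agent.H207.BT.TRANT
import Pool.Agent.H807.BT207.CLOSET
import Pool.Agent.H947.BT207.TOPT
import Pool.Agent.H110.BT207.SOLVE3T
import Pool.Agent.H928.BT207.NORM5T
import Pool.Agent.H118.BT207.REAL1T
import Pool.Agent.H157.BT207.VTT

/-! Project BT: the pieces with times put together -/

set_option autoImplicit false

namespace Pool.Agent.H207.BT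

open Pool.Agent.H790R3.RB Pool.Agent.H211.HY

theorem q_TG3T : S_TG3T := Pool.Agent.H30.BT207.t_TG3T
theorem q_TRANT : S_TRANT := Pool.Agent.H207.BT.TRT.t_TRANT p_DER
theorem q_CLOSET : S_CLOSET := Pool.Agent.H807.BT207.CLOSET.t_CLOSET q_DXM q_ROOT
theorem q_VTT : S_VTT := Pool.Agent.H157.BT207.t_VTT q_PULL q_SCALE3 Pool.Agent.H118.BT207.t_REAL1T
theorem q_TOPT : S_TOPT := Pool.Agent.H947.BT207.t_TOPT q_VTT
theorem q_SOLVE3T : S_SOLVE3T := Pool.Agent.H110.BT207.t_SOLVE3T p_SCALE2 q_FOL2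
theorem q_NORM5T : S_NORM5T := Pool.Agent.H928.BT207.t_NORM5T

/-- **All combinatorial types near Collet-Eckmann maps, with a rate.** -/
theorem main_typT {d : ℕ} {x : CV d} (hx : Hyp0 x) : TypT x := by
  refine q_NORM5T d x hx fun y hy hny => ?_
  exact asm_typT q_TRANT q_CLOSET q_TG3T q_TOPT q_SOLVE3T q_WRF p_DCR p_LEO p_FACT p_UNIF p_DIST
    p_FUNC p_FAM p_ORBS p_DUAL p_INV p_L1 p_ZERO p_LINE
    (asm_jul p_LEOJ p_DEEPJ p_NFE p_FACT hy hny) hny

end Pool.Agent.H207.BT
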