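import Pool.Agent.H211.HY.AsmC
import Pool.Agent.H211.HY.Stm5

/-!
# Project BT: all types of postcritically finite maps near Collet-Eckmann maps: statements

The setting is the one of `Pool/Agent/H211/HY` (`Defs.lean`, `Stm1.lean`, `Stm5.lean`, `AsmC.lean`): families `X s` of
rational maps of the same critical multiplicities, orbits of critical values in charts, `Good`, `YY`, `DD`.
-/

set_option autoImplicit false

open Topology Filter Metric Set MeasureTheory Polynomial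

namespace Pool.Agent.H207.BT

open Pool.Agent.H790R3.RB Pool.Agent.H211.HY

/-- **Following, with relative closeness.** (Assume `S_FOL`, proved in `Pool/Agent/H720/HY211/FOL.lean`.)

Proof. Apply `S_FOL` with `ε' = min ε 1` to get `θ'`, `r₀'`, `N₀'`. Take `θ ≤ θ'` small, `r₀ ≤ r₀'` small, `N₀ = N₀'`. For
`N₀' ≤ n < N` the partial sum up to `n` is also `≤ θ`, so `S_FOL` at `n` gives
`‖YY n s - z n‖ ≤ (‖κ‖ + 1) r ‖DD n‖ ≤ (‖κ‖ + 1) θ x n` (one term of the sum `≤ N` is `r ‖DD n‖ / x n ≤ θ`), and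
`‖s‖ ≤ r ≤ r ‖DD n‖ / c ≤ θ x n / c` (`gr`: `‖DD n‖ ≥ c μ ^ n ≥ c`). For the finitely many `n < N₀'`: `YY f v n` is
continuous at `0` with the value `z n` (by `v0`, `fz`, `vd`, `fd`, induction) and `x n > 0` is fixed, so
`‖s‖ + ‖YY n s - z n‖ ≤ τ x n` for `‖s‖ < r₀` if `r₀` is small. -/
def S_FOL2 : Prop :=
  ∀ (k : ℕ) (i : Fin k) (f : ℕ → (Fin k → ℂ) → ℂ → ℂ) (v : (Fin k → ℂ) → ℂ) (z : ℕ → ℂ)
    (x : ℕ → ℝ) (ρ C c μ : ℝ) (κ : ℂ), Good i f v z x ρ C c μ κ → ∀ ε > (0 : ℝ), ∀ τ > (0 : ℝ),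
      ∃ θ > (0 : ℝ), ∃ r₀ > (0 : ℝ), ∃ N₀ : ℕ, ∀ (r : ℝ) (N : ℕ), 0 < r → r ≤ r₀ → N₀ ≤ N →
        ∑ n ∈ Finset.range N, r * ‖DD f z n‖ / x n ≤ θ →
          DifferentiableOn ℂ (YY f v N) (ball 0 r) ∧ ∀ s ∈ ball (0 : Fin k → ℂ) r,
            (∀ n < N, ‖YY f v n s - z n‖ < ρ ∧ ‖s‖ + ‖YY f v n s - z n‖ ≤ τ * x n) ∧
            ‖YY f v N s - z N - κ * DD f z N * s i‖ ≤ ε * r * ‖DD f z N‖

/-- **Pulling back along the orbit of a critical value.** (Assume `S_FOL2`.)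

Proof. Extended family with the parameter `(s, t) ∈ ℂ^(k+1)` (`t` is the last coordinate, index `Fin.last k`):
`f̂ n (s, t) w = f n s w`, `v̂ (s, t) = v s + t - κ * s i`, the same `z`, `x`. It is `Good (Fin.last k) f̂ v̂ z x ρ Ĉ c μ 1` with
some `Ĉ ≥ C` (bound for `v̂`; `DD` is the same; in `fn` the limit is `κ b_i + b_t - κ b_i = b_t`). The field `ds` with the
same `C` also holds (or use `Ĉ` there). Apply `S_FOL2` with `ε = 1/64` and `τ = 1 / (2 C)`: with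
`E (s, t) = YY f̂ v̂ N (s, t) - z N - D t`, `D = DD f z N`, `‖E‖ ≤ δ ‖D‖ / 64` on the ball of radius `δ`, `E` holomorphic
there. By Cauchy / Schwarz on complex lines `E` has the Lipschitz constant `≤ ‖D‖ / 8` on the ball of radius
`δ / 2`; also `YY .. N (0, 0) = z N`, so `E (0, 0) = 0`. For `‖s‖ < r` (`r ≤ δ / K₀`) the map
`t ↦ (u s - z N - E (s, t)) / D` is a contraction of the closed disc of radius `δ / 4`, (because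
`‖u s - z N‖ ≤ ‖u 0 - z N‖ + Λ r ≤ 2 δ ‖D‖ / K₀`); let `t (s)` be its fixed point and `w s = v s + t s - κ s i`. Then
`YY f w N s = YY f̂ v̂ N (s, t s) = u s` (`YY` depends only on the value `w s`). Subtracting the equations at `s`, `s'`:
`‖t s - t s'‖ ≤ (Λ / ‖D‖ + 1/8) ‖s - s'‖ + (1/8) ‖t s - t s'‖`; `v` is Lipschitz near `0` (bounded holomorphic).
At `s = 0`: `D t (0) + E (0, t 0) = u 0 - z N` and `‖E (0, t)‖ ≤ ‖D‖ ‖t‖ / 8`, `w 0 - z 0 = t 0`. -/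
def S_PULL : Prop :=
  ∀ (k : ℕ) (i : Fin k) (f : ℕ → (Fin k → ℂ) → ℂ → ℂ) (v : (Fin k → ℂ) → ℂ) (z : ℕ → ℂ)
    (x : ℕ → ℝ) (ρ C c μ : ℝ) (κ : ℂ), Good i f v z x ρ C c μ κ →
      ∃ K₀ ≥ (1 : ℝ), ∃ θ > (0 : ℝ), ∃ r₀ > (0 : ℝ), ∃ N₀ : ℕ, ∀ (δ : ℝ) (N : ℕ), 0 < δ → δ ≤ r₀ →
        N₀ ≤ N → ∑ n ∈ Finset.range N, δ * ‖DD f z n‖ / x n ≤ θ →
        ∀ (u : (Fin k → ℂ) → ℂ) (r Λ : ℝ), 0 < r → 0 ≤ Λ → K₀ * r ≤ δ →
          K₀ * Λ * r ≤ δ * ‖DD f z N‖ →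
          (∀ s ∈ ball (0 : Fin k → ℂ) r, ∀ s' ∈ ball (0 : Fin k → ℂ) r,
            ‖u s - u s'‖ ≤ Λ * ‖s - s'‖) →
          K₀ * ‖u 0 - z N‖ ≤ δ * ‖DD f z N‖ →
          ∃ w : (Fin k → ℂ) → ℂ,
            (∀ s ∈ ball (0 : Fin k → ℂ) r, ∀ s' ∈ ball (0 : Fin k → ℂ) r,
              ‖w s - w s'‖ ≤ (K₀ + K₀ * Λ / ‖DD f z N‖) * ‖s - s'‖) ∧
            ‖u 0 - z N‖ ≤ K₀ * ‖DD f z N‖ * ‖w 0 - z 0‖ ∧
            ‖DD f z N‖ * ‖w 0 - z 0‖ ≤ K₀ * ‖u 0 - z N‖ ∧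
            ∀ s ∈ ball (0 : Fin k → ℂ) r, YY f w N s = u s ∧
              ∀ n < N, ‖YY f w n s - z n‖ < ρ ∧ ‖s‖ + ‖YY f w n s - z n‖ ≤ x n / (2 * C)

/-- **Good scales in small windows.** As `S_SCALE2` in `Pool/Agent/H211/HY/Stm5.lean` (proved in
`Pool/Agent/H721/HY211/SCALE2.lean`; adapt it) for one orbit, with the window `[r ^ (1 + α), r]`.

Proof. See the docstring of `S_SCALE`: with `θ'`, `S` small (depending on `α`), for large `T'` the number of the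
`m < T'` for which the scale `2 ^ (-m)` is bad is less than `(α / 8) T'` (for `α ≤ 1`, we may assume that). For `r` small let
`T = ⌈log₂ (1 / r)⌉`, `T' = ⌊(1 + α) log₂ (1 / r)⌋`: there are at least `(α / 2) T` numbers `m` with `T ≤ m ≤ T'`, so one of
them is good, `r' = 2 ^ (-m)`. -/
def S_SCALE3 : Prop :=
  ∀ (C c μ : ℝ) (p x : ℕ → ℝ), 1 ≤ C → 0 < c → 1 < μ → p 0 = 1 → (∀ n, c * μ ^ n ≤ p n) →
    (∀ n, 0 < x n ∧ x n ≤ 1) → (∀ n, p (n + 1) ≤ C * x n * p n) →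
    ∀ α > (0 : ℝ), ∀ θ > (0 : ℝ), ∀ A > (0 : ℝ), ∃ ε > (0 : ℝ), ∃ r₀ > (0 : ℝ), ∀ r : ℝ, 0 < r →
      r ≤ r₀ → ∃ r' : ℝ, r ^ (1 + α) ≤ r' ∧ r' ≤ r ∧ ∃ N : ℕ,
        ∑ n ∈ Finset.range N, r' * p n / x n ≤ θ ∧ (ε ≤ r' * p N ∨ A * x N ≤ r' * p N)

/-- **Solving the equations, with targets which depend on the scale.** (Assume `S_SCALE` and `S_FOL2`.) As
`S_SOLVE` (proved in `Pool/Agent/H190/HY211/SOLVE.lean`; adapt it).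

Proof. As in the docstring of `S_SOLVE`: `κ₀ = min ‖κ i‖`, `S_FOL2` with `ε = κ₀ / 64`, `τ = 1 / (2 C)`; the hypothesis with
`σ = κ₀ / 64` gives `A`; `S_SCALE` with this `A` and `θ ≤ 1 / C` gives `ε₁` and arbitrarily small `r`; the hypothesis with
`ε₁` gives `r₀`. `r ‖DD N‖ ≤ 1`: for `N = 0` clear, otherwise `r ‖DD N‖ ≤ C x r ‖DD (N-1)‖ ≤ C x² θ ≤ 1` (with `x` at `N - 1`,
`dx`). `N i → ∞` as `r → 0`, so `N i ≥ N₀`. The map `Φ(s) i = s i - (YY .. (N i) s - q i s) / (κ i * D i)` on the closed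
ball of radius `r / 2` is a contraction, `‖Φ(s)‖ ≤ r / 2`. -/
def S_SOLVE3 : Prop :=
  ∀ (k : ℕ) (f : Fin k → ℕ → (Fin k → ℂ) → ℂ → ℂ) (v : Fin k → (Fin k → ℂ) → ℂ)
    (z : Fin k → ℕ → ℂ) (x : Fin k → ℕ → ℝ) (ρ C c μ : ℝ) (κ : Fin k → ℂ),
    (∀ i, Good i (f i) (v i) (z i) (x i) ρ C c μ (κ i)) →
    ∀ Tg : Fin k → ℕ → (Fin k → ℂ) → ℂ → Prop,
      (∀ σ > (0 : ℝ), ∃ A > (0 : ℝ), ∀ ε > (0 : ℝ), ∃ r₀ > (0 : ℝ), ∀ (i : Fin k) (N : ℕ) (r : ℝ),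
        0 < r → r ≤ r₀ → r * ‖DD (f i) (z i) N‖ ≤ 1 →
        (ε ≤ r * ‖DD (f i) (z i) N‖ ∨ A * x i N ≤ r * ‖DD (f i) (z i) N‖) →
        ∃ q : (Fin k → ℂ) → ℂ, (∀ s ∈ ball (0 : Fin k → ℂ) r, Tg i N s (q s)) ∧
          (∀ s ∈ ball (0 : Fin k → ℂ) r, ∀ s' ∈ ball (0 : Fin k → ℂ) r,
            ‖q s - q s'‖ ≤ σ * ‖DD (f i) (z i) N‖ * ‖s - s'‖) ∧
          ‖q 0 - z i N‖ ≤ σ * (r * ‖DD (f i) (z i) N‖)) →
      ∀ r₁ > (0 : ℝ), ∃ s : Fin k → ℂ, ‖s‖ < r₁ ∧ ∀ i, ∃ N : ℕ,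
        Tg i N s (YY (f i) (v i) N s) ∧
          ∀ n < N, ‖YY (f i) (v i) n s - z i n‖ < ρ ∧
            ‖s‖ + ‖YY (f i) (v i) n s - z i n‖ ≤ x i n / (2 * C)

/-- **Derivatives near critical points.**

Proof. By `S_DER` (proved: `Pool/Agent/H921/HY211/DER.lean`) the derivative is, up to a sign,
`wr x₀ (iot τ z) / (d dn²)` with `iot τ z ∥ p` of norm between `1` and `2`, and the denominator bounded from below
(`ND`, compactness; see `Pool/Agent/H295/HY211/DIST.lean`, which has it inside), and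
`wr x₀ (u, v) = wr x₀ (1, 0) ∏ (u - v c₀ i) ^ m i` (`Fac`, homogeneity), `|u - v c₀ l| ≤ C cho p (c₀ l, 1)`. -/
def S_DXM : Prop :=
  ∀ (d k : ℕ) (x₀ : CV d) (c₀ : Fin k → ℂ) (m : Fin k → ℕ), 2 ≤ d → ND x₀ → Fac x₀ k c₀ m →
    ∃ K ≥ (1 : ℝ), ∀ (p : ℂ × ℂ) (l : Fin k), p ≠ 0 →
      ‖deriv (GG x₀ (tau p) (tau (hF x₀ p))) (zc p)‖ ≤ K * cho p (c₀ l, 1) ^ m l

/-- **Roots: preimages near a critical point of moving points near the critical value.**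

Proof. There are finitely many `l`, two charts `τ = tau p`. If `cho p (c₀ l, 1) ≤ η` is small, `ζ_l (s) = lc τ (c l s, 1)` is
holomorphic near `0` (denominator nonzero: for `τ = true` it is `1`; for `τ = false` the point `c₀ l` is not `0`, since
`cho p (0, 1)` is bounded from below then) and `|zc p - ζ_l (0)| ≤ C cho p (c₀ l, 1)`. Put `g s ζ = GG (X s) τ τ_l ζ`,
`τ_l = tau (qo x₀ (c₀ l) 1)`, and `v s = cv x₀ X (c₀ l) (c l) s = g s (ζ_l s)`; `g` is holomorphic near `(0, ζ_l 0)`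
(`dn τ_l (hF x₀ (c₀ l, 1)) ≠ 0`). By `Fami.fac` and `S_DER` the derivative of `g s` is `(ζ - ζ_l s) ^ m l` times a nonvanishing
holomorphic function of `(s, ζ)`, so `g s ζ - v s = (ζ - ζ_l s) ^ (m l + 1) h (s, ζ)` with `h` holomorphic, nonzero near
`(0, ζ_l 0)` (for example `h` is an integral `∫₀¹ a ^ m (..) da`). So `g s ζ - v s = Φ (s, ζ) ^ (m l + 1)`,
`Φ = (ζ - ζ_l s) h ^ (1 / (m l + 1))`, and `ζ ↦ Φ (s, ζ)` is bi-Lipschitz near `ζ_l 0` with an inverse `Ψ (s, ·)`, Lipschitz in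
both variables. Let `T s = w s - v s`, `‖T 0‖ = y ^ (m l + 1)`; for `‖s‖ < r` `‖T s - T 0‖ ≤ (K + C) r ≤ ‖T 0‖ / 4` (`B` large),
so there are `m l + 1 ≥ 2` branches `b s` of `(T s) ^ (1 / (m l + 1))` which are Lipschitz with the constant
`C K y ^ (- m l)`, of modulus about `y`. `q s = Ψ (s, b s)`. Two different branches `b` differ by at least `c y`, so for one
of them `‖q 0 - zc p‖ ≥ y / B`. Not critical: `q s ≠ ζ_l s`, and the other critical points are far. (Instead of `Φ`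
one can solve `g s q = w s` by a contraction on the disc of radius `c y` about a solution at `s = 0`; see `S_DIST`.) -/
def S_ROOT : Prop :=
  ∀ (d k : ℕ) (x₀ : CV d) (c₀ : Fin k → ℂ) (m : Fin k → ℕ) (X : (Fin k → ℂ) → CV d)
    (c : Fin k → (Fin k → ℂ) → ℂ) (ρ : ℝ), 2 ≤ d → ND x₀ → wr x₀ (1, 0) ≠ 0 → Fac x₀ k c₀ m →
    Fami x₀ k c₀ m X c ρ → ∃ η > (0 : ℝ), η ≤ ρ ∧ ∃ B ≥ (1 : ℝ),
      ∀ (p : ℂ × ℂ) (l : Fin k) (w : (Fin k → ℂ) → ℂ) (y r K : ℝ), p ≠ 0 →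
        cho p (c₀ l, 1) ≤ η → 0 < y → y ≤ η →
        y ^ (m l + 1) = ‖w 0 - cv x₀ X (c₀ l) (c l) 0‖ → 0 < r → 1 ≤ K →
        B * K * r ≤ y ^ (m l + 1) →
        (∀ s ∈ ball (0 : Fin k → ℂ) r, ∀ s' ∈ ball (0 : Fin k → ℂ) r,
          ‖w s - w s'‖ ≤ K * ‖s - s'‖) →
        ∃ q : (Fin k → ℂ) → ℂ,
          ‖q 0 - zc p‖ ≤ B * (y + cho p (c₀ l, 1)) ∧ y ≤ B * ‖q 0 - zc p‖ ∧
          (∀ s ∈ ball (0 : Fin k → ℂ) r, ∀ s' ∈ ball (0 : Fin k → ℂ) r,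
            y ^ m l * ‖q s - q s'‖ ≤ B * K * ‖s - s'‖) ∧
          ∀ s ∈ ball (0 : Fin k → ℂ) r, wr (X s) (iot (tau p) (q s)) ≠ 0 ∧
            cr (hF (X s) (iot (tau p) (q s))) (iot (tau (qo x₀ (c₀ l) 1)) (w s)) = 0

/-- The direction `p` is mapped by an iterate of `x` onto the direction `g`, and the points before are not
critical. -/
def Rch {d : ℕ} (x : CV d) (g p : ℂ × ℂ) : Prop :=
  ∃ n : ℕ, (∀ j < n, wr x ((hF x)^[j] p) ≠ 0) ∧ cr ((hF x)^[n] p) g = 0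

/-- **Targets everywhere, landing at a given critical point.** As `S_TG2`, `S_TG2B` (proved in
`Pool/Agent/H274/HY211/TG2.lean`, `Pool/Agent/H277/HY211/TG2B.lean`; adapt them).

Proof. By `LEO x₀` there is, near any point `iot τ z'`, a point `iot τ q'` and `n` with `(hF x₀)^[n] (iot τ q') ∥ (c₀ l, 1)`. The
points before are not critical: otherwise a critical point is mapped by an iterate `≥ 1` to the critical
point `(c₀ l, 1)`, which contradicts `CE x₀` (`noncrit` in `AsmC0.lean`) (for `n = 0` nothing to prove). Implicit function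
theorem, compactness: finitely many `(τ, q')` suffice, as in `S_TG2`; the noncriticality before remains true for
small `s`. For the lower bound apply this to a point `z'` with `‖z'‖ ≤ 1`, `‖z' - z‖ = ε / 2` and the accuracy `ε / 4`. -/
def S_TG3 : Prop :=
  ∀ (d k : ℕ) (x₀ : CV d) (c₀ : Fin k → ℂ) (m : Fin k → ℕ) (X : (Fin k → ℂ) → CV d)
    (c : Fin k → (Fin k → ℂ) → ℂ) (ρ : ℝ), 2 ≤ d → ND x₀ → CE x₀ → LEO x₀ → wr x₀ (1, 0) ≠ 0 →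
    Fac x₀ k c₀ m → Fami x₀ k c₀ m X c ρ → ∀ ε > (0 : ℝ), ε ≤ 1 →
      ∃ ρ₁ > (0 : ℝ), ρ₁ ≤ ρ ∧ ∃ L : ℝ, ∀ (l : Fin k) (τ : Bool) (z : ℂ), ‖z‖ ≤ 1 →
        ∃ q : (Fin k → ℂ) → ℂ, IsT q ρ₁ L ∧ ε / 4 ≤ ‖q 0 - z‖ ∧ ‖q 0 - z‖ ≤ ε ∧
          ∀ s ∈ ball (0 : Fin k → ℂ) ρ₁, Rch (X s) (c l s, 1) (iot τ (q s))

/-- The abstract setting for the recursion: `RP i n s u` says that the point `u` near `z i n`, at the
parameter `s`, reaches the goal. -/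
structure Sett {k : ℕ} (f : Fin k → ℕ → (Fin k → ℂ) → ℂ → ℂ) (v : Fin k → (Fin k → ℂ) → ℂ)
    (z : Fin k → ℕ → ℂ) (x : Fin k → ℕ → ℝ) (ρ C c μ : ℝ) (κ : Fin k → ℂ) (m : Fin k → ℕ)
    (RP : Fin k → ℕ → (Fin k → ℂ) → ℂ → Prop) (η B : ℝ) : Prop where
  good : ∀ i, Good i (f i) (v i) (z i) (x i) ρ C c μ (κ i)
  mpos : ∀ i, 1 ≤ m i
  η0 : 0 < η
  B1 : 1 ≤ B
  tran : ∀ (i : Fin k) (N : ℕ) (s : Fin k → ℂ) (w : (Fin k → ℂ) → ℂ), ‖s‖ < ρ →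
    (∀ n < N, ‖YY (f i) w n s - z i n‖ < ρ ∧
      ‖s‖ + ‖YY (f i) w n s - z i n‖ ≤ x i n / (2 * C)) →
    RP i N s (YY (f i) w N s) → RP i 0 s (w s)
  close : ∀ (i : Fin k) (n : ℕ), x i n ≤ η → ∃ l : Fin k,
    ‖DD (f i) (z i) (n + 1)‖ ≤ B * x i n ^ m l * ‖DD (f i) (z i) n‖ ∧
    ∀ (w : (Fin k → ℂ) → ℂ) (y r K : ℝ), 0 < y → y ≤ η → y ^ (m l + 1) = ‖w 0 - z l 0‖ → 0 < r →
      1 ≤ K → B * K * r ≤ y ^ (m l + 1) →
      (∀ s ∈ ball (0 : Fin k → ℂ) r, ∀ s' ∈ ball (0 : Fin k → ℂ) r,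
        ‖w s - w s'‖ ≤ K * ‖s - s'‖) →
      (∀ s ∈ ball (0 : Fin k → ℂ) r, RP l 0 s (w s)) →
      ∃ q : (Fin k → ℂ) → ℂ, ‖q 0 - z i n‖ ≤ B * (y + x i n) ∧ y ≤ B * ‖q 0 - z i n‖ ∧
        (∀ s ∈ ball (0 : Fin k → ℂ) r, ∀ s' ∈ ball (0 : Fin k → ℂ) r,
          y ^ m l * ‖q s - q s'‖ ≤ B * K * ‖s - s'‖) ∧
        ∀ s ∈ ball (0 : Fin k → ℂ) r, RP i n s (q s)
  far : ∀ ε > (0 : ℝ), ε ≤ 1 → ∃ ρ₁ > (0 : ℝ), ∃ L : ℝ, ∀ (i : Fin k) (n : ℕ),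
    ∃ q : (Fin k → ℂ) → ℂ, IsT q ρ₁ L ∧ ε / 4 ≤ ‖q 0 - z i n‖ ∧ ‖q 0 - z i n‖ ≤ ε ∧
      ∀ s ∈ ball (0 : Fin k → ℂ) ρ₁, RP i n s (q s)

/-- The assertion of the recursion at the scale `δ`: near every critical value there are moving points which
reach the goal, with a uniform Lipschitz constant. -/
def VT {k : ℕ} (z : Fin k → ℕ → ℂ) (RP : Fin k → ℕ → (Fin k → ℂ) → ℂ → Prop) (β K : ℝ) (i : Fin k)
    (δ : ℝ) : Prop :=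
  ∃ w : (Fin k → ℂ) → ℂ, δ ^ (1 + β) ≤ ‖w 0 - z i 0‖ ∧ ‖w 0 - z i 0‖ ≤ δ ∧
    (∀ s ∈ ball (0 : Fin k → ℂ) (δ ^ (1 + β) / K), ∀ s' ∈ ball (0 : Fin k → ℂ) (δ ^ (1 + β) / K),
      ‖w s - w s'‖ ≤ K * ‖s - s'‖) ∧
    ∀ s ∈ ball (0 : Fin k → ℂ) (δ ^ (1 + β) / K), RP i 0 s (w s)

end Pool.Agent.H207.BT
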