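import Pool.Agent.H207.BT.Stm

/-!
# Project BT: the recursion, the concrete setting, normalisation: statements
-/

set_option autoImplicit false

open Topology Filter Metric Set MeasureTheory Polynomial

namespace Pool.Agent.H207.BT

open Pool.Agent.H790R3.RB Pool.Agent.H211.HY

/-- **The recursion.** (Assume `S_PULL` and `S_SCALE3`.)

Proof. Write `p n = ‖DD (f i) (z i) n‖`. If there is `i`: `C ≥ μ > 1` as `c μ ^ n ≤ p n ≤ C ^ n`; `γ = log μ / log C ∈ (0, 1]`.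
`VT` with a smaller `β` implies `VT` with a larger one (for `δ ≤ 1`), so let `β ≤ γ / 16`; `α = β / 8`. Let `K₀, θ, r₀, N₀` be
given by `S_PULL`, uniformly in `i` (max / min; the assertion is monotone), and `θ ≤ 1 / C`. `A = 2 K₀ B`,
`σ = 1 / (2 K₀ B)`. `ε₀` from `S_SCALE3` with `α, θ, A`, reduced to `ε₀ ≤ min η 1`. `far` with `ε₁ = ε₀ / K₀` gives `ρ₁, L`
(`L ≥ 0`). Fix `δ₁ ≤ min 1 η, r₀, ..` with `8 δ₁ ^ β ≤ 1`, and then `δ_b < δ₁` very small (it depends on `δ₁` and on all the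
constants above, but not on `K`). Finally `K` is large, depending on `δ_b`. We prove `VT` for `0 < δ ≤ δ₁`, all `i`.

Base `δ_b ≤ δ ≤ δ₁`: for the finitely many `δ_j = 2 ^ (-j) δ₁ ≥ δ_b / 2` use `far` with `n = 0`, `ε = δ_j`: for
`δ_j ≤ δ ≤ 2 δ_j` the point has `δ_j / 4 ≤ ‖w 0 - z 0‖ ≤ δ_j ≤ δ`, and `δ ^ (1 + β) ≤ 2 δ_j δ₁ ^ β ≤ δ_j / 4`. `K` is at least the
Lipschitz constants and `1 / K` at most the radii `ρ₁` of these finitely many.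

Step `δ < δ_b` (strong induction: `VT` is known for all scales in `[2 δ, δ₁]`, e.g. induction on `n` for the scales
`δ ≥ 2 ^ (-n) δ_b`). `S_SCALE3` with `r = δ`: `δ'`, `N` with `δ ^ (1 + α) ≤ δ' ≤ δ`, `∑_{n < N} δ' p n / x n ≤ θ` and
`R := δ' p N ≥ ε₀` or `A x N ≤ R`. `R ≤ 1`: for `N > 0` `R ≤ δ' C x p (N-1) ≤ C θ ≤ 1` (`x` at `N - 1` is at most `1`). `N ≥ N₀` since for the
finitely many `N < N₀` both alternatives fail for small `δ`. Let `r = δ ^ (1 + β) / K`.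
(far) If `R ≥ ε₀`: the far target `u` (`ε₁ / 4 ≤ ‖u 0 - z N‖ ≤ ε₁`, Lipschitz constant `L`) in `S_PULL` (with `δ'` as `δ`):
`K₀ r ≤ K₀ δ ^ (1 + β) ≤ δ'`, `K₀ L r ≤ ε₀ ≤ R`, `r ≤ ρ₁` as `δ` is small, `K₀ ε₁ ≤ R`. We get `w` with the Lipschitz
constant `≤ K₀ + K₀ L / c ≤ K`, `‖w 0 - z 0‖ ≤ K₀ ε₁ / p N ≤ δ'` and
`‖w 0 - z 0‖ ≥ ε₁ / (4 K₀ p N) ≥ ε₁ δ' / (4 K₀) ≥ δ ^ (1 + β)`. `tran` gives `RP i 0 s (w s)` (for `‖s‖ < r < ρ`).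
(close) Otherwise `x N ≤ R / A ≤ η`; let `l` be given by `close`, `m = m l`. `c μ ^ (N + 1) ≤ p (N + 1) ≤ B (R / A) ^ m p N`, so
(1) `R ^ m p N ≥ c₁ μ ^ N`, `R ^ (m + 1) ≥ c₁ μ ^ N δ' ≥ c₁ δ'`; hence `C ^ N ≥ p N = R / δ' ≥ c₂ δ' ^ (- m / (m + 1)) ≥ c₂ δ ^ (-1/2)`
and (2) `μ ^ N ≥ c₃ δ ^ (- γ / 2)`. Let `y = min (σ R) (δ₁ ^ (1 / (m + 1)))`, `δ'' = y ^ (m + 1) ≤ δ₁`. Claim: `δ'' ≥ (2 + K₀ B) δ`:
if `y = σ R` then `δ'' ≥ σ ^ (m + 1) c₁ μ ^ N δ ^ (1 + α)` and use (2); otherwise `δ'' = δ₁`. Take `w''` from `VT` for `l`, `δ''`,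
`y' = ‖w'' 0 - z l 0‖ ^ (1 / (m + 1))`, `y ^ (1 + β) ≤ y' ≤ y`. `close` with `w''`, `y'`, `r`, `K`: `r ≤ δ'' ^ (1 + β) / K`,
`B K r = B δ ^ (1 + β) ≤ δ'' ^ (1 + β) ≤ y' ^ (m + 1)`. It gives `q` with `K₀ ‖q 0 - z i N‖ ≤ K₀ B (y' + x N) ≤ R`,
`‖q 0 - z i N‖ ≥ y' / B`, with the Lipschitz constant `Λ = B K / y' ^ m`. `S_PULL` with `δ'`, `u = q`: `K₀ r ≤ δ'`,
`K₀ Λ r = K₀ B δ ^ (1 + β) / y' ^ m ≤ R` (since `R y' ^ m ≥ y' ^ (m + 1) ≥ δ'' ^ (1 + β) ≥ K₀ B δ ^ (1 + β)`). The Lipschitz constant of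
`w` is at most `K₀ + K₀ B K / (y' ^ m p N) ≤ K` if `K ≥ 2 K₀` and `y' ^ m p N ≥ 2 K₀ B`: if `y = σ R` then
`y' ^ m p N ≥ (σ R) ^ ((1 + β) m) p N ≥ σ ^ (2 m) c₁ μ ^ N R ^ (β m)`, `R ^ (β m) ≥ (c₁ δ') ^ β ≥ c₄ δ ^ (2 β)`, and use (2); otherwise
`y' ^ m ≥ δ₁ ^ 2`, `p N = R / δ' ≥ δ₁ / δ`, `δ` small. Size: `‖w 0 - z 0‖ ≤ K₀ ‖q 0 - z N‖ / p N ≤ R / p N = δ' ≤ δ`, and
`‖w 0 - z 0‖ ≥ y' / (B K₀ p N) = y' δ' / (B K₀ R)`; if `y = σ R`: `y' / R ≥ σ ^ 2 R ^ β ≥ c₅ δ' ^ (β / 2)`, so the lower bound is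
`≥ c₆ δ ^ ((1 + α) (1 + β / 2)) ≥ δ ^ (1 + β)`; otherwise `y' / R ≥ y' ≥ δ₁ ^ 2` and the bound is `≥ c₇ δ₁ ^ 2 δ ^ (1 + α)`. -/
def S_VT : Prop :=
  ∀ (k : ℕ) (f : Fin k → ℕ → (Fin k → ℂ) → ℂ → ℂ) (v : Fin k → (Fin k → ℂ) → ℂ)
    (z : Fin k → ℕ → ℂ) (x : Fin k → ℕ → ℝ) (ρ C c μ : ℝ) (κ : Fin k → ℂ) (m : Fin k → ℕ)
    (RP : Fin k → ℕ → (Fin k → ℂ) → ℂ → Prop) (η B : ℝ),
    Sett f v z x ρ C c μ κ m RP η B → ∀ β > (0 : ℝ), ∃ δ₀ > (0 : ℝ), ∃ K ≥ (1 : ℝ),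
      ∀ (i : Fin k) (δ : ℝ), 0 < δ → δ ≤ δ₀ → VT z RP β K i δ

/-- **Targets for the solution.** (Assume `S_VT`.)

Proof. `p n = ‖DD (f i) (z i) n‖`, `γ = log μ / log C` as in `S_VT`; use `S_VT` with `β = γ / 16`: `δ₀`, `K`. Given `σ` (wlog
`σ ≤ 1`) put `A = 2 B / σ`, `σ' = σ / (2 B)`. Let `ε` be given; reduce it: `ε ≤ min η 1` and `ε ^ 2 ≤ δ₀` (with a smaller `ε`
the hypothesis is weaker). `far` with `σ ε` gives `ρ₁`, `L`. Let `R = r p N ≤ 1`. If `R ≥ ε`: the far target, since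
`L ≤ σ p N` (`p N ≥ ε / r₀`). Otherwise `A x N ≤ R < ε`, `x N ≤ η`; `close` gives `l`, `m = m l`; as in `S_VT` (with `r` instead
of `δ'`): (1) `R ^ m p N ≥ c₁ μ ^ N`, `R ^ (m + 1) ≥ c₁ μ ^ N r`, (2) `μ ^ N ≥ c₃ r ^ (- γ / 2)`. Let `y = σ' R`, `δ = y ^ (m + 1) ≤ δ₀`;
`VT` for `l`, `δ` gives `w''`, `y' = ‖w'' 0 - z l 0‖ ^ (1 / (m + 1)) ∈ [y ^ (1 + β), y]`. `close` with `w''`, `y'`, `r`, `K`:
`B K r ≤ y' ^ (m + 1)` and `r ≤ δ ^ (1 + β) / K` since `δ ^ (1 + β) ≥ c₄ R ^ (2 β) R ^ (m + 1) .. ≥ c₅ r ^ (1 + 2 β) μ ^ N` (for the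
exponent: `R ^ (m + 1) ≥ c₁ r`, so `R ^ ((m + 1) β) ≥ (c₁ r) ^ β`) and (2). It gives `q`,
`‖q 0 - z i N‖ ≤ B (y' + x N) ≤ B (σ' + 1 / A) R ≤ σ R`, with the Lipschitz constant `B K / y' ^ m ≤ σ p N` since
`y' ^ m p N ≥ c₆ R ^ m p N R ^ (β m) ≥ c₇ μ ^ N r ^ (2 β)` and (2), `r ≤ r₀` small. -/
def S_TOP : Prop :=
  ∀ (k : ℕ) (f : Fin k → ℕ → (Fin k → ℂ) → ℂ → ℂ) (v : Fin k → (Fin k → ℂ) → ℂ)
    (z : Fin k → ℕ → ℂ) (x : Fin k → ℕ → ℝ) (ρ C c μ : ℝ) (κ : Fin k → ℂ) (m : Fin k → ℕ)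
    (RP : Fin k → ℕ → (Fin k → ℂ) → ℂ → Prop) (η B : ℝ),
    Sett f v z x ρ C c μ κ m RP η B →
      ∀ σ > (0 : ℝ), ∃ A > (0 : ℝ), ∀ ε > (0 : ℝ), ∃ r₀ > (0 : ℝ), ∀ (i : Fin k) (N : ℕ) (r : ℝ),
        0 < r → r ≤ r₀ → r * ‖DD (f i) (z i) N‖ ≤ 1 →
        (ε ≤ r * ‖DD (f i) (z i) N‖ ∨ A * x i N ≤ r * ‖DD (f i) (z i) N‖) →
        ∃ q : (Fin k → ℂ) → ℂ, (∀ s ∈ ball (0 : Fin k → ℂ) r, RP i N s (q s)) ∧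
          (∀ s ∈ ball (0 : Fin k → ℂ) r, ∀ s' ∈ ball (0 : Fin k → ℂ) r,
            ‖q s - q s'‖ ≤ σ * ‖DD (f i) (z i) N‖ * ‖s - s'‖) ∧
          ‖q 0 - z i N‖ ≤ σ * (r * ‖DD (f i) (z i) N‖)

/-! ### The concrete setting -/

/-- The concrete data (all of it is given by the theorem `good_of` in `AsmC.lean`). -/
structure Conc {d k : ℕ} (x₀ : CV d) (c₀ : Fin k → ℂ) (m : Fin k → ℕ) (X : (Fin k → ℂ) → CV d)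
    (c : Fin k → (Fin k → ℂ) → ℂ) (ρ' C K μ : ℝ) (κ : Fin k → ℂ) (xx : Fin k → ℕ → ℝ) : Prop where
  hd : 2 ≤ d
  nd : ND x₀
  ce : CE x₀
  leo : LEO x₀
  nrm : Nrm x₀
  fac : Fac x₀ k c₀ m
  fami : Fami x₀ k c₀ m X c ρ'
  good : ∀ i, Good i (cf x₀ X (c₀ i)) (cv x₀ X (c₀ i) (c i)) (cz x₀ (c₀ i)) (xx i) ρ' C K μ (κ i)
  step : ∀ i n, ∀ s ∈ ball (0 : Fin k → ℂ) ρ', ∀ w ∈ ball (cz x₀ (c₀ i) n) ρ',
    cr (hF (X s) (iot (tau (qo x₀ (c₀ i) (n + 1))) w))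
      (iot (tau (qo x₀ (c₀ i) (n + 2))) (cf x₀ X (c₀ i) n s w)) = 0
  val : ∀ i, ∀ s ∈ ball (0 : Fin k → ℂ) ρ', cr (hF (X s) (c i s, 1))
    (iot (tau (qo x₀ (c₀ i) 1)) (cv x₀ X (c₀ i) (c i) s)) = 0
  dis : ∀ i n, ∃ j, cho (qo x₀ (c₀ i) (n + 1)) (c₀ j, 1) ≤ xx i n
  dfd : ∀ i n, ∀ s ∈ ball (0 : Fin k → ℂ) ρ', ∀ w ∈ ball (cz x₀ (c₀ i) n) ρ',
    dn (tau (qo x₀ (c₀ i) (n + 2))) (hF (X s) (iot (tau (qo x₀ (c₀ i) (n + 1))) w)) ≠ 0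

/-- The point `u` (near the `n`-th point of the orbit of the `i`-th critical value) reaches the critical
point `g`. -/
def RPc {d k : ℕ} (x₀ : CV d) (X : (Fin k → ℂ) → CV d) (c₀ : Fin k → ℂ)
    (c : Fin k → (Fin k → ℂ) → ℂ) (g i : Fin k) (n : ℕ) (s : Fin k → ℂ) (u : ℂ) : Prop :=
  Rch (X s) (c g s, 1) (iot (tau (qo x₀ (c₀ i) (n + 1))) u)

/-- **Transport.**

Proof. Let `y n = YY (cf ..) w n s`. By `ds` (with `‖s‖ + ‖y n - z n‖ ≤ x n / (2 C)`), `deriv (cf .. n s) (y n) ≠ 0` for `n < N`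
(`dx`: the derivative at `z n` is not `0`). `S_DER` (proved in `Pool/Agent/H921/HY211/DER.lean`; the denominator is
nonzero by `dfd`) gives the derivative as a multiple of `wr (X s) (iot τ (y n))`, so this is not `0`. By `step`
`hF (X s) (iot τ_n (y n)) ∥ iot τ_(n+1) (y (n+1))` (`y n ∈ ball (z n) ρ'`, `s ∈ ball 0 ρ'`). By downward induction on `n`
(from `N` to `0`) `iot τ_n (y n)` reaches the goal: `Rch` passes from `p'` to `p` if `hF x p ∥ p'` and `wr x p ≠ 0`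
(`cr_iter`, `cr_trans`, `wr_of_par` in `AsmC0.lean`, `AsmD.lean`; `wr` vanishes on parallel nonzero directions together). -/
def S_TRAN : Prop :=
  ∀ (d k : ℕ) (x₀ : CV d) (c₀ : Fin k → ℂ) (m : Fin k → ℕ) (X : (Fin k → ℂ) → CV d)
    (c : Fin k → (Fin k → ℂ) → ℂ) (ρ' C K μ : ℝ) (κ : Fin k → ℂ) (xx : Fin k → ℕ → ℝ),
    Conc x₀ c₀ m X c ρ' C K μ κ xx → ∀ (g i : Fin k) (N : ℕ) (s : Fin k → ℂ)
      (w : (Fin k → ℂ) → ℂ), ‖s‖ < ρ' →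
      (∀ n < N, ‖YY (cf x₀ X (c₀ i)) w n s - cz x₀ (c₀ i) n‖ < ρ' ∧
        ‖s‖ + ‖YY (cf x₀ X (c₀ i)) w n s - cz x₀ (c₀ i) n‖ ≤ xx i n / (2 * C)) →
      RPc x₀ X c₀ c g i N s (YY (cf x₀ X (c₀ i)) w N s) → RPc x₀ X c₀ c g i 0 s (w s)

/-- **Close passages.** (Assume `S_DXM` and `S_ROOT`.)

Proof. `η`, `B` from `S_ROOT`, `K` from `S_DXM`; take `B' = max B K`. Let `xx i n ≤ η`; `dis` gives `l` with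
`cho (qo .. (n + 1)) (c₀ l, 1) ≤ xx i n`. `DD (n + 1) = DD n * deriv (cf .. n 0) (z n)`, where `X 0 = x₀` (`Fami.at0`) and
`qo .. (n + 2) = hF x₀ (qo .. (n + 1))`, so `S_DXM` gives the first inequality. The second part is `S_ROOT` with
`p = qo x₀ (c₀ i) (n + 1)` (`zc p = cz x₀ (c₀ i) n`; note `cz x₀ (c₀ l) 0 = cv .. 0` by `Good.v0`); `Rch` passes to the
preimage since `wr (X s) (iot τ (q s)) ≠ 0` (with `n + 1` instead of `n`; `cr_iter`, `cr_trans`, `wr_of_par`; for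
`s ∈ ball 0 r` we have `ND (X s)` since `r ≤ ρ'`: `B K r ≤ y ^ (m + 1)` and reduce `η` so that `η ≤ 1`, `η ≤ ρ'`). -/
def S_CLOSE : Prop :=
  ∀ (d k : ℕ) (x₀ : CV d) (c₀ : Fin k → ℂ) (m : Fin k → ℕ) (X : (Fin k → ℂ) → CV d)
    (c : Fin k → (Fin k → ℂ) → ℂ) (ρ' C K₁ μ : ℝ) (κ : Fin k → ℂ) (xx : Fin k → ℕ → ℝ),
    Conc x₀ c₀ m X c ρ' C K₁ μ κ xx → ∃ η > (0 : ℝ), ∃ B ≥ (1 : ℝ),
      ∀ (g i : Fin k) (n : ℕ), xx i n ≤ η → ∃ l : Fin k,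
        ‖DD (cf x₀ X (c₀ i)) (cz x₀ (c₀ i)) (n + 1)‖ ≤
          B * xx i n ^ m l * ‖DD (cf x₀ X (c₀ i)) (cz x₀ (c₀ i)) n‖ ∧
        ∀ (w : (Fin k → ℂ) → ℂ) (y r K : ℝ), 0 < y → y ≤ η →
          y ^ (m l + 1) = ‖w 0 - cz x₀ (c₀ l) 0‖ → 0 < r → 1 ≤ K → B * K * r ≤ y ^ (m l + 1) →
          (∀ s ∈ ball (0 : Fin k → ℂ) r, ∀ s' ∈ ball (0 : Fin k → ℂ) r,
            ‖w s - w s'‖ ≤ K * ‖s - s'‖) →
          (∀ s ∈ ball (0 : Fin k → ℂ) r, RPc x₀ X c₀ c g l 0 s (w s)) →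
          ∃ q : (Fin k → ℂ) → ℂ, ‖q 0 - cz x₀ (c₀ i) n‖ ≤ B * (y + xx i n) ∧
            y ≤ B * ‖q 0 - cz x₀ (c₀ i) n‖ ∧
            (∀ s ∈ ball (0 : Fin k → ℂ) r, ∀ s' ∈ ball (0 : Fin k → ℂ) r,
              y ^ m l * ‖q s - q s'‖ ≤ B * K * ‖s - s'‖) ∧
            ∀ s ∈ ball (0 : Fin k → ℂ) r, RPc x₀ X c₀ c g i n s (q s)

/-- **All types of maps near `x`**: `c₀ i` are the distinct critical points, `m i` their multiplicities; for every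
map `φ` of the index set there are maps `z` near `x`, whose critical points `c' i` (near `c₀ i`) have the same
multiplicities, such that the first critical point in the forward orbit of `c' i` is `c' (φ i)`. -/
def TypP {d : ℕ} (x : CV d) : Prop :=
  ∃ (k : ℕ) (c₀ : Fin k → ℂ × ℂ) (m : Fin k → ℕ) (a : ℂ), a ≠ 0 ∧ (∀ i, 1 ≤ m i) ∧
    (∀ i, c₀ i ≠ 0) ∧ (∀ i j, i ≠ j → cr (c₀ i) (c₀ j) ≠ 0) ∧
    (∀ p, wr x p = a * ∏ i, cr p (c₀ i) ^ m i) ∧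
    ∀ (φ : Fin k → Fin k) (ε : ℝ), 0 < ε → ∃ (z : CV d) (c' : Fin k → ℂ × ℂ) (a' : ℂ),
      ‖z - x‖ < ε ∧ ND z ∧ a' ≠ 0 ∧ (∀ i, c' i ≠ 0) ∧ (∀ i j, i ≠ j → cr (c' i) (c' j) ≠ 0) ∧
      (∀ p, wr z p = a' * ∏ i, cr p (c' i) ^ m i) ∧ (∀ i, cho (c' i) (c₀ i) < ε) ∧
      ∀ i, ∃ n : ℕ, 1 ≤ n ∧ cr ((hF z)^[n] (c' i)) (c' (φ i)) = 0 ∧
        ∀ j : ℕ, 1 ≤ j → j < n → wr z ((hF z)^[j] (c' i)) ≠ 0

/-- **Normalisation.** As `S_NORM4`, `S_NORM2` (proved in `Pool/Agent/H721/HY211/NORM2.lean`; see also the proof of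
`S_NORM4`, `Pool/Agent/*/HY211/NORM4.lean`; adapt them). For `L` linear of determinant `1` and `y` the conjugate of `x`,
`cr (L p) (L q) = cr p q`, `wr y (L p) = wr x p`, `hF y ∘ L = L ∘ hF x`; `cho (L p) (L q) ≤ K cho p q` (`N2 (L p) ≥ N2 p / K'`), and
the conjugation of coefficient vectors is linear, so Lipschitz. -/
def S_NORM5 : Prop :=
  ∀ (d : ℕ) (x : CV d), Hyp0 x → (∀ y : CV d, Hyp0 y → Nrm y → TypP y) → TypP x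

/-- **The factorisation in homogeneous coordinates.** See the proof of `S_SAME` (`Stm5.lean`; proved in
`Pool/Agent/*/HY211/SAME.lean`): `wr x` is homogeneous of degree `2 d - 2 = ∑ m i` and `cr (u, v) (c, 1) = u - v c`. -/
def S_WRF : Prop :=
  ∀ (d k : ℕ) (x : CV d) (m : Fin k → ℕ) (c : Fin k → ℂ), 2 ≤ d → ∑ i, m i = 2 * d - 2 →
    (∀ ζ : ℂ, wr x (ζ, 1) = wr x (1, 0) * ∏ i, (ζ - c i) ^ m i) →
    ∀ p : ℂ × ℂ, wr x p = wr x (1, 0) * ∏ i, cr p (c i, 1) ^ m i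

end Pool.Agent.H207.BT
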