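import Pool.Agent.H207.BT.Stm

/-!
# Project BT: the root lemma in three pieces
-/

set_option autoImplicit false

open Topology Filter Metric Set

namespace Pool.Agent.H207.BT

open Pool.Agent.H790R3.RB Pool.Agent.H211.HY

/-- **Roots in one variable.**

Proof. `G u = (u - ζ₀) ^ n h u`, `h` analytic, `h ζ₀ ≠ 0` (`AnalyticAt.analyticOrderAt_eq_natCast`). `Φ u = (u - ζ₀) h₁ u` with
`h₁ = a (h / h ζ₀) ^ (1 / n)`, `a ^ n = h ζ₀` (`Complex.cpow`, near `1`), satisfies `Φ ^ n = G` near `ζ₀`, `Φ' ζ₀ = a ≠ 0`; let `Ψ` be the local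
inverse (`HasStrictDerivAt.localInverse`), bi-Lipschitz with a constant `C`. For `‖t‖ = y ^ n`, `t ≠ 0` there are two different
roots `b₁`, `b₂` of `b ^ n = t` (`b₂ = b₁ e`, `e = -1` or a root of unity with `|e - 1| ≥ c > 0`), `‖b_j‖ = y`, and
`u_j = Ψ b_j` has `‖u_j - ζ₀‖ ∈ [y / C, C y]` and `‖u₁ - u₂‖ ≥ c y / C`, so one of them has `‖u_j - z‖ ≥ c y / (2 C)`. -/
def S_RT1 : Prop :=
  ∀ (G : ℂ → ℂ) (ζ₀ : ℂ) (n : ℕ), 2 ≤ n → AnalyticAt ℂ G ζ₀ →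
    (∃ h : ℂ → ℂ, AnalyticAt ℂ h ζ₀ ∧ h ζ₀ ≠ 0 ∧ ∀ᶠ u in 𝓝 ζ₀, G u = (u - ζ₀) ^ n * h u) →
    ∃ η > (0 : ℝ), ∃ B ≥ (1 : ℝ), ∀ (t z : ℂ) (y : ℝ), ‖t‖ = y ^ n → 0 < y → y ≤ η →
      ∃ u : ℂ, G u = t ∧ ‖u - ζ₀‖ ≤ B * y ∧ y ≤ B * ‖u - ζ₀‖ ∧ y ≤ B * ‖u - z‖

/-- **Roots with parameters, abstract.** (Assume `S_RT1`.)

Proof. Let `G u = g 0 u - g 0 (ζ 0)`: its derivative has a zero of the order `m` at `ζ 0`, so `G` has a zero of the order `m + 1`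
(if `G' = (u - ζ₀) ^ m h₁` then `G = (u - ζ₀) ^ (m + 1) h`, `h ζ₀ = h₁ ζ₀ / (m + 1)`: use `AnalyticAt.exists_eventuallyEq_pow_smul_nonzero_iff`
or the order of the derivative). `S_RT1` with `t = w 0 - g 0 (ζ 0)`, `z` gives `q₀` with `g 0 q₀ = w 0`,
`‖q₀ - ζ 0‖ ∈ [y / B₁, B₁ y]`, `‖q₀ - z‖ ≥ y / B₁`. On the disc `D` of radius `a y` about `q₀` (`a` small) and for `‖s‖ < r`
(`B K r ≤ y ^ (m + 1)`, so `r ≤ y / B`; `ζ` is Lipschitz near `0`) the derivative `(u - ζ s) ^ m h₁ (s, u)` differs from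
`D₀ = (q₀ - ζ 0) ^ m h₁ (0, q₀)` by at most `‖D₀‖ / 4`, and `‖D₀‖ ∈ [y ^ m / B₂, B₂ y ^ m]`. Also `‖g s u - g s' u‖ ≤ C ‖s - s'‖` near
`(0, ζ 0)` (holomorphic, bounded). So `u ↦ u - (g s u - w s) / D₀` is a contraction (constant `1/4`) of the closed disc of
radius `a y / 2`, as `‖g s q₀ - w s‖ ≤ (C + K) r ≤ ‖D₀‖ a y / 8` for `B` large; its fixed point `q s` has `g s (q s) = w s`,
`‖q s - q s'‖ ≤ 2 (C + K) ‖s - s'‖ / ‖D₀‖`, `q 0 = q₀` (uniqueness), and `q s ≠ ζ s` since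
`‖q s - ζ s‖ ≥ y / B₁ - a y / 2 - C r > 0`. (`ContractingWith` or Banach on the closed disc.) -/
def S_ROOTA : Prop :=
  ∀ (k m : ℕ) (ρ : ℝ) (g : (Fin k → ℂ) → ℂ → ℂ) (ζ : (Fin k → ℂ) → ℂ)
    (h₁ : (Fin k → ℂ) × ℂ → ℂ), 1 ≤ m → 0 < ρ → DifferentiableOn ℂ ζ (ball 0 ρ) →
    DifferentiableOn ℂ (fun p : (Fin k → ℂ) × ℂ => g p.1 p.2) (ball 0 ρ ×ˢ ball (ζ 0) ρ) →
    DifferentiableOn ℂ h₁ (ball 0 ρ ×ˢ ball (ζ 0) ρ) →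
    (∀ p ∈ (ball 0 ρ ×ˢ ball (ζ 0) ρ : Set ((Fin k → ℂ) × ℂ)), h₁ p ≠ 0) →
    (∀ s ∈ ball (0 : Fin k → ℂ) ρ, ∀ u ∈ ball (ζ 0) ρ,
      HasDerivAt (g s) ((u - ζ s) ^ m * h₁ (s, u)) u) →
    ∃ η > (0 : ℝ), η ≤ ρ ∧ ∃ B ≥ (1 : ℝ), ∀ (z : ℂ) (w : (Fin k → ℂ) → ℂ) (y r K : ℝ),
      ‖z - ζ 0‖ ≤ η → 0 < y → y ≤ η → y ^ (m + 1) = ‖w 0 - g 0 (ζ 0)‖ → 0 < r → 1 ≤ K →
      B * K * r ≤ y ^ (m + 1) →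
      (∀ s ∈ ball (0 : Fin k → ℂ) r, ∀ s' ∈ ball (0 : Fin k → ℂ) r,
        ‖w s - w s'‖ ≤ K * ‖s - s'‖) →
      ∃ q : (Fin k → ℂ) → ℂ,
        ‖q 0 - z‖ ≤ B * (y + ‖z - ζ 0‖) ∧ y ≤ B * ‖q 0 - z‖ ∧
        (∀ s ∈ ball (0 : Fin k → ℂ) r, ∀ s' ∈ ball (0 : Fin k → ℂ) r,
          y ^ m * ‖q s - q s'‖ ≤ B * K * ‖s - s'‖) ∧
        ∀ s ∈ ball (0 : Fin k → ℂ) r, s ∈ ball (0 : Fin k → ℂ) ρ ∧ q s ∈ ball (ζ 0) ρ ∧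
          q s ≠ ζ s ∧ g s (q s) = w s

/-- **The concrete data for the abstract root lemma.**

Proof. `ζ s = lc τ (c l s, 1)` (`τ = true`: `c l s`; `τ = false`: `1 / c l s`, `c₀ l ≠ 0`), `τ_l = tau (qo x₀ (c₀ l) 1)`. For `(s, u)` near
`(0, ζ 0)`: `dn τ_l (hF (X s) (iot τ u)) ≠ 0` (at `(0, ζ 0)`: `iot τ (ζ 0) ∥ (c₀ l, 1)`, so this is a multiple of
`dn τ_l (qo x₀ (c₀ l) 1) ≠ 0`). `S_DER`: `HasDerivAt (GG (X s) τ τ_l) (± wr (X s) (iot τ u) / (d dn²)) u`. For `τ = true`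
`wr (X s) (u, 1) = wr (X s) (1, 0) ∏ i, (u - c i s) ^ m i`; for `τ = false`, `u ≠ 0` (near `ζ 0 = 1 / c₀ l ≠ 0`),
`(1, u) = u • (1 / u, 1)`, `wr (X s) (1, u) = wr (X s) (1, 0) ∏ (1 - u c i s) ^ m i` (homogeneity, `StWR`, `∑ m i = 2 d - 2`). The
factor with `i = l` is `(u - ζ s) ^ m l` times a unit, the others are units near `(0, ζ 0)` (`c₀` injective). -/
def S_RTC : Prop :=
  ∀ (d k : ℕ) (x₀ : CV d) (c₀ : Fin k → ℂ) (m : Fin k → ℕ) (X : (Fin k → ℂ) → CV d)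
    (c : Fin k → (Fin k → ℂ) → ℂ) (ρ : ℝ), 2 ≤ d → ND x₀ → wr x₀ (1, 0) ≠ 0 → Fac x₀ k c₀ m →
    Fami x₀ k c₀ m X c ρ → ∀ (l : Fin k) (τ : Bool), dn τ (c₀ l, 1) ≠ 0 →
      ∃ ρ₂ > (0 : ℝ), ρ₂ ≤ ρ ∧ ∃ h₁ : (Fin k → ℂ) × ℂ → ℂ,
        DifferentiableOn ℂ (fun s => lc τ (c l s, 1)) (ball 0 ρ₂) ∧
        DifferentiableOn ℂ
          (fun p : (Fin k → ℂ) × ℂ => GG (X p.1) τ (tau (qo x₀ (c₀ l) 1)) p.2)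
          (ball 0 ρ₂ ×ˢ ball (lc τ (c₀ l, 1)) ρ₂) ∧
        DifferentiableOn ℂ h₁ (ball 0 ρ₂ ×ˢ ball (lc τ (c₀ l, 1)) ρ₂) ∧
        (∀ p ∈ (ball 0 ρ₂ ×ˢ ball (lc τ (c₀ l, 1)) ρ₂ : Set ((Fin k → ℂ) × ℂ)), h₁ p ≠ 0) ∧
        ∀ s ∈ ball (0 : Fin k → ℂ) ρ₂,
          dn τ (c l s, 1) ≠ 0 ∧
          GG (X s) τ (tau (qo x₀ (c₀ l) 1)) (lc τ (c l s, 1)) = cv x₀ X (c₀ l) (c l) s ∧
          ∀ u ∈ ball (lc τ (c₀ l, 1)) ρ₂,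
            HasDerivAt (GG (X s) τ (tau (qo x₀ (c₀ l) 1)))
              ((u - lc τ (c l s, 1)) ^ m l * h₁ (s, u)) u ∧
            cr (hF (X s) (iot τ u))
              (iot (tau (qo x₀ (c₀ l) 1)) (GG (X s) τ (tau (qo x₀ (c₀ l) 1)) u)) = 0 ∧
            (wr (X s) (iot τ u) = 0 → u = lc τ (c l s, 1))

end Pool.Agent.H207.BT
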