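import Pool.Agent.H207.BT.Stm2
import Pool.Agent.H211.HY.Stm3

/-!
# Project BT: general moving goals, repelling periodic points: statements
-/

set_option autoImplicit false

open Topology Filter Metric Set MeasureTheory Polynomial

namespace Pool.Agent.H207.BT

open Pool.Agent.H790R3.RB Pool.Agent.H211.HY

/-- As `RPc`, with a moving goal `γ`. -/
def RPg {d k : ℕ} (x₀ : CV d) (X : (Fin k → ℂ) → CV d) (c₀ : Fin k → ℂ)
    (γ : (Fin k → ℂ) → ℂ × ℂ) (i : Fin k) (n : ℕ) (s : Fin k → ℂ) (u : ℂ) : Prop :=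
  Rch (X s) (γ s) (iot (tau (qo x₀ (c₀ i) (n + 1))) u)

/-- **Transport, general goals.** As `S_TRAN` (proved in `Pool/Agent/H965/BT207/TRAN.lean`; replace `(c g s, 1)` by `γ s`). -/
def S_TRANG : Prop :=
  ∀ (d k : ℕ) (x₀ : CV d) (c₀ : Fin k → ℂ) (m : Fin k → ℕ) (X : (Fin k → ℂ) → CV d)
    (c : Fin k → (Fin k → ℂ) → ℂ) (ρ' C K μ : ℝ) (κ : Fin k → ℂ) (xx : Fin k → ℕ → ℝ),
    Conc x₀ c₀ m X c ρ' C K μ κ xx → ∀ (γ : (Fin k → ℂ) → ℂ × ℂ) (i : Fin k) (N : ℕ)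
      (s : Fin k → ℂ) (w : (Fin k → ℂ) → ℂ), γ s ≠ 0 → ‖s‖ < ρ' →
      (∀ n < N, ‖YY (cf x₀ X (c₀ i)) w n s - cz x₀ (c₀ i) n‖ < ρ' ∧
        ‖s‖ + ‖YY (cf x₀ X (c₀ i)) w n s - cz x₀ (c₀ i) n‖ ≤ xx i n / (2 * C)) →
      RPg x₀ X c₀ γ i N s (YY (cf x₀ X (c₀ i)) w N s) → RPg x₀ X c₀ γ i 0 s (w s)

/-- **Close passages, general goals.** (Assume `S_DXM` and `S_ROOT`.) As `S_CLOSE` (proved in
`Pool/Agent/H415/BT207/CLOSE.lean`, `Pool/Agent/H871/BT207/CLOSE.lean`; replace `(c g s, 1)` by `γ s`). -/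
def S_CLOSEG : Prop :=
  ∀ (d k : ℕ) (x₀ : CV d) (c₀ : Fin k → ℂ) (m : Fin k → ℕ) (X : (Fin k → ℂ) → CV d)
    (c : Fin k → (Fin k → ℂ) → ℂ) (ρ' C K₁ μ : ℝ) (κ : Fin k → ℂ) (xx : Fin k → ℕ → ℝ),
    Conc x₀ c₀ m X c ρ' C K₁ μ κ xx → ∃ η > (0 : ℝ), ∃ B ≥ (1 : ℝ),
      ∀ (γ : (Fin k → ℂ) → ℂ × ℂ) (i : Fin k) (n : ℕ),
        (∀ s ∈ ball (0 : Fin k → ℂ) ρ', γ s ≠ 0) → xx i n ≤ η → ∃ l : Fin k,
        ‖DD (cf x₀ X (c₀ i)) (cz x₀ (c₀ i)) (n + 1)‖ ≤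
          B * xx i n ^ m l * ‖DD (cf x₀ X (c₀ i)) (cz x₀ (c₀ i)) n‖ ∧
        ∀ (w : (Fin k → ℂ) → ℂ) (y r K : ℝ), 0 < y → y ≤ η →
          y ^ (m l + 1) = ‖w 0 - cz x₀ (c₀ l) 0‖ → 0 < r → 1 ≤ K → B * K * r ≤ y ^ (m l + 1) →
          (∀ s ∈ ball (0 : Fin k → ℂ) r, ∀ s' ∈ ball (0 : Fin k → ℂ) r,
            ‖w s - w s'‖ ≤ K * ‖s - s'‖) →
          (∀ s ∈ ball (0 : Fin k → ℂ) r, RPg x₀ X c₀ γ l 0 s (w s)) →
          ∃ q : (Fin k → ℂ) → ℂ, ‖q 0 - cz x₀ (c₀ i) n‖ ≤ B * (y + xx i n) ∧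
            y ≤ B * ‖q 0 - cz x₀ (c₀ i) n‖ ∧
            (∀ s ∈ ball (0 : Fin k → ℂ) r, ∀ s' ∈ ball (0 : Fin k → ℂ) r,
              y ^ m l * ‖q s - q s'‖ ≤ B * K * ‖s - s'‖) ∧
            ∀ s ∈ ball (0 : Fin k → ℂ) r, RPg x₀ X c₀ γ i n s (q s)

/-- **Targets everywhere, general goals.** As `S_TG3` (proved in `Pool/Agent/H137/BT207/TG3.lean`), with a holomorphic moving
goal `γ` which at the parameter `0` is not in the forward orbit of a critical point (this replaces `CE`). -/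
def S_TG4 : Prop :=
  ∀ (d k : ℕ) (x₀ : CV d) (c₀ : Fin k → ℂ) (m : Fin k → ℕ) (X : (Fin k → ℂ) → CV d)
    (c : Fin k → (Fin k → ℂ) → ℂ) (ρ : ℝ) (γ : (Fin k → ℂ) → ℂ × ℂ), 2 ≤ d → ND x₀ → LEO x₀ →
    wr x₀ (1, 0) ≠ 0 → Fac x₀ k c₀ m → Fami x₀ k c₀ m X c ρ → DifferentiableOn ℂ γ (ball 0 ρ) →
    (∀ s ∈ ball (0 : Fin k → ℂ) ρ, γ s ≠ 0) →
    (∀ p : ℂ × ℂ, p ≠ 0 → wr x₀ p = 0 → ∀ n : ℕ, cr ((hF x₀)^[n + 1] p) (γ 0) ≠ 0) →
    ∀ ε > (0 : ℝ), ε ≤ 1 → ∃ ρ₁ > (0 : ℝ), ρ₁ ≤ ρ ∧ ∃ L : ℝ, ∀ (τ : Bool) (z : ℂ), ‖z‖ ≤ 1 →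
        ∃ q : (Fin k → ℂ) → ℂ, IsT q ρ₁ L ∧ ε / 4 ≤ ‖q 0 - z‖ ∧ ‖q 0 - z‖ ≤ ε ∧
          ∀ s ∈ ball (0 : Fin k → ℂ) ρ₁, Rch (X s) (γ s) (iot τ (q s))

/-- **All periodic points are repelling.** (Use `p_HITL`, `p_SHJ`, `p_LEOJ`, `p_CHO` of `Pool/Agent/H211/HY/Fin.lean`, or assume
`S_HITL`, `S_SHJ`, `S_LEOJ`, `S_CHO`.)

Proof. `LEOJ x` by `S_LEOJ`. No point of the cycle of `p` is critical (otherwise a critical point is mapped to itself and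
`sdn` at the critical value vanishes, against `CE`). Let `η₀ > 0` be the minimum of `cho ((hF x)^[l] p) (c i, 1)` over
`l` (finitely many directions) and `i`, and take `θ ∈ (1, μ)` in `S_HITL`, `R` small. For all `N`, apply `S_HITL` with the
time `n N`, `τ = tau p`, `y = zc p`, `z = p` (`(hF x)^[n N] p ∥ p ∥ iot τ y`). The second alternative would give
`η₀ ^ (m i + 1) c₀ μ ^ j ≤ C θ ^ j R`, false for small `R` (`m i ≤ 2 d`). So there is a branch `g` of the inverse of the iterate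
`n N` on `ball y R`, `g y ∥ p`. By `S_SHJ` (all points are in the Julia set, `Hyp.jul`) `cho (g u) (g y) < η` on `ball y (R / 8)` for
`N` large. By Cauchy (in a coordinate at `p`) the speed of `g` at `y` is at most `C' η / R`, and it is
`≥ c' / sdn x (n N) p = c' / (sdn x n p) ^ N`. So `(sdn x n p) ^ N > 1` for some `N`. -/
def S_RPL : Prop :=
  ∀ (d k : ℕ) (x : CV d) (c : Fin k → ℂ) (m : Fin k → ℕ), Hyp x → Nrm x → Fac x k c m →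
    ∀ (p : ℂ × ℂ) (n : ℕ), p ≠ 0 → 0 < n → cr ((hF x)^[n] p) p = 0 → 1 < sdn x n p

/-- **Many periodic points.**

Proof. `H (u, v) = cr ((hF x)^[n] (u, v)) (u, v)` is a form of degree `D = d ^ n + 1`. If `H` vanishes at `p ≠ 0` to the second
order then the multiplier of the `n`-th iterate at `p` is `1`, so `sdn x n p = 1`: contradiction (also if `H = 0`). So the
zeros in the projective line are simple: `D` different directions, at most one of them is `(1, 0)`. (The polynomial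
`A ζ = H (ζ, 1)` has degree `≥ D - 1` and simple roots: `A ξ = 0`, `A' ξ = 0` gives multiplier `1`.) -/
def S_CNT : Prop :=
  ∀ (d : ℕ) (x : CV d), 2 ≤ d → ND x →
    (∀ (p : ℂ × ℂ) (n : ℕ), p ≠ 0 → 0 < n → cr ((hF x)^[n] p) p = 0 → 1 < sdn x n p) →
    ∀ n : ℕ, 0 < n → ∃ S : Finset ℂ, d ^ n ≤ S.card ∧
      ∀ ξ ∈ S, cr ((hF x)^[n] (ξ, 1)) (ξ, 1) = 0

/-- **A repelling periodic point outside the critical orbits.** (Assume `S_RPL`, `S_CNT`.)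

Proof. There are finitely many critical directions (`S_FACT`). If the forward orbit of a critical direction contains a
periodic direction then all periodic directions in it belong to one cycle. So the set `E` of the `ξ` for which `(ξ, 1)` is
periodic and parallel to a point of the forward orbit of a critical point is finite; take `n` with `d ^ n > |E|`. -/
def S_PER : Prop :=
  ∀ (d : ℕ) (x : CV d), Hyp x → Nrm x → ∃ (ξ : ℂ) (n : ℕ), 0 < n ∧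
    cr ((hF x)^[n] (ξ, 1)) (ξ, 1) = 0 ∧ 1 < sdn x n (ξ, 1) ∧
    ∀ p : ℂ × ℂ, p ≠ 0 → wr x p = 0 → ∀ j : ℕ, cr ((hF x)^[j] p) (ξ, 1) ≠ 0

/-- **The periodic point moves holomorphically.**

Proof. Implicit function theorem for `H (s, ζ) = cr ((hF (X s))^[n] (ζ, 1)) (ζ, 1)`: the derivative in `ζ` at `(0, ξ)` is, up to a
nonzero factor, `multiplier - 1`, and `|multiplier| = sdn x₀ n (ξ, 1) > 1` (see `S_CHO`, fifth part, for the speed of the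
iterates). `H` is a polynomial in the coefficients and `ζ`. (`IsContDiffImplicitAt` or `HasStrictFDerivAt.implicitFunction`, with
analyticity / `ContDiffAt ℂ`; see the proofs of `S_TG2`, `S_TG3`.) -/
def S_MOT : Prop :=
  ∀ (d k : ℕ) (x₀ : CV d) (X : (Fin k → ℂ) → CV d) (ρ : ℝ) (ξ : ℂ) (n : ℕ), 2 ≤ d → ND x₀ →
    0 < ρ → DifferentiableOn ℂ X (ball 0 ρ) → X 0 = x₀ → 0 < n →
    cr ((hF x₀)^[n] (ξ, 1)) (ξ, 1) = 0 → 1 < sdn x₀ n (ξ, 1) →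
    ∃ ρ₁ > (0 : ℝ), ρ₁ ≤ ρ ∧ ∃ γ : (Fin k → ℂ) → ℂ, DifferentiableOn ℂ γ (ball 0 ρ₁) ∧
      γ 0 = ξ ∧ ∀ s ∈ ball (0 : Fin k → ℂ) ρ₁, cr ((hF (X s))^[n] (γ s, 1)) (γ s, 1) = 0

/-- All critical points are strictly preperiodic. -/
def SPre {d : ℕ} (z : CV d) : Prop :=
  ∀ p : ℂ × ℂ, p ≠ 0 → wr z p = 0 →
    (∃ m n : ℕ, 0 < n ∧ cr ((hF z)^[m + n] p) ((hF z)^[m] p) = 0) ∧
    ∀ n : ℕ, 0 < n → cr ((hF z)^[n] p) p ≠ 0

/-- **Normalisation.** As `S_NORM4`, `S_NORM5` (proved in `Pool/Agent/H345/HY211/NORM4.lean`, `Pool/Agent/H813/BT207/NORM5.lean`). -/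
def S_NORM6 : Prop :=
  ∀ (d : ℕ) (x : CV d), Hyp0 x →
    (∀ y : CV d, Hyp0 y → Nrm y → ∀ ε : ℝ, 0 < ε → ∃ z : CV d, ‖z - y‖ < ε ∧ ND z ∧ SPre z) →
    ∀ ε : ℝ, 0 < ε → ∃ z : CV d, ‖z - x‖ < ε ∧ ND z ∧ SPre z

/-- **Lattès maps.**

Proof. `R = quar r ≠ 0` has at most four zero directions `Z`. `R(p) wr(p)² = d³ R(F p)`: `F` maps `Z` and the critical
directions into `Z`, so critical orbits are finite. A critical point is not periodic by `CE`. -/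
def S_LATL : Prop :=
  ∀ (d : ℕ) (x : CV d), 2 ≤ d → ND x → CE x → Lat x → SPre x

end Pool.Agent.H207.BT
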