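import Pool.Agent.H207.BT.Stm2
import Pool.Agent.H211.HY.Stm5

/-!
# Project BT, with times (exponential rate): statements
-/

set_option autoImplicit false

open Topology Filter Metric Set MeasureTheory Polynomial

namespace Pool.Agent.H207.BT

open Pool.Agent.H790R3.RB Pool.Agent.H211.HY

/-- As `Rch`, with a bound for the time. -/
def RchT {d : ℕ} (M : ℕ) (x : CV d) (g p : ℂ × ℂ) : Prop :=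
  ∃ n ≤ M, (∀ j < n, wr x ((hF x)^[j] p) ≠ 0) ∧ cr ((hF x)^[n] p) g = 0

/-- As `RPc`, with a bound for the time. -/
def RPT {d k : ℕ} (x₀ : CV d) (X : (Fin k → ℂ) → CV d) (c₀ : Fin k → ℂ)
    (c : Fin k → (Fin k → ℂ) → ℂ) (g : Fin k) (M : ℕ) (i : Fin k) (n : ℕ) (s : Fin k → ℂ)
    (u : ℂ) : Prop :=
  RchT M (X s) (c g s, 1) (iot (tau (qo x₀ (c₀ i) (n + 1))) u)

/-- As `S_TG3` (proved in `Pool/Agent/H137/BT207/TG3.lean`), with a bound `M` for the time: compactness gives finitely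
many `n`. -/
def S_TG3T : Prop :=
  ∀ (d k : ℕ) (x₀ : CV d) (c₀ : Fin k → ℂ) (m : Fin k → ℕ) (X : (Fin k → ℂ) → CV d)
    (c : Fin k → (Fin k → ℂ) → ℂ) (ρ : ℝ), 2 ≤ d → ND x₀ → CE x₀ → LEO x₀ → wr x₀ (1, 0) ≠ 0 →
    Fac x₀ k c₀ m → Fami x₀ k c₀ m X c ρ → ∀ ε > (0 : ℝ), ε ≤ 1 →
      ∃ ρ₁ > (0 : ℝ), ρ₁ ≤ ρ ∧ ∃ (L : ℝ) (M : ℕ), ∀ (l : Fin k) (τ : Bool) (z : ℂ), ‖z‖ ≤ 1 →
        ∃ q : (Fin k → ℂ) → ℂ, IsT q ρ₁ L ∧ ε / 4 ≤ ‖q 0 - z‖ ∧ ‖q 0 - z‖ ≤ ε ∧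
          ∀ s ∈ ball (0 : Fin k → ℂ) ρ₁, RchT M (X s) (c l s, 1) (iot τ (q s))

/-- As `S_TRAN` (proved in `Pool/Agent/H965/BT207/TRAN.lean`), with times. -/
def S_TRANT : Prop :=
  ∀ (d k : ℕ) (x₀ : CV d) (c₀ : Fin k → ℂ) (m : Fin k → ℕ) (X : (Fin k → ℂ) → CV d)
    (c : Fin k → (Fin k → ℂ) → ℂ) (ρ' C K μ : ℝ) (κ : Fin k → ℂ) (xx : Fin k → ℕ → ℝ),
    Conc x₀ c₀ m X c ρ' C K μ κ xx → ∀ (g : Fin k) (M : ℕ) (i : Fin k) (N : ℕ) (s : Fin k → ℂ)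
      (w : (Fin k → ℂ) → ℂ), ‖s‖ < ρ' →
      (∀ n < N, ‖YY (cf x₀ X (c₀ i)) w n s - cz x₀ (c₀ i) n‖ < ρ' ∧
        ‖s‖ + ‖YY (cf x₀ X (c₀ i)) w n s - cz x₀ (c₀ i) n‖ ≤ xx i n / (2 * C)) →
      RPT x₀ X c₀ c g M i N s (YY (cf x₀ X (c₀ i)) w N s) →
      RPT x₀ X c₀ c g (M + N) i 0 s (w s)

/-- As `S_CLOSE` (proved in `Pool/Agent/H415/BT207/CLOSE.lean`), with times. (Assume `S_DXM`, `S_ROOT`.) -/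
def S_CLOSET : Prop :=
  ∀ (d k : ℕ) (x₀ : CV d) (c₀ : Fin k → ℂ) (m : Fin k → ℕ) (X : (Fin k → ℂ) → CV d)
    (c : Fin k → (Fin k → ℂ) → ℂ) (ρ' C K₁ μ : ℝ) (κ : Fin k → ℂ) (xx : Fin k → ℕ → ℝ),
    Conc x₀ c₀ m X c ρ' C K₁ μ κ xx → ∃ η > (0 : ℝ), ∃ B ≥ (1 : ℝ),
      ∀ (g i : Fin k) (n : ℕ), xx i n ≤ η → ∃ l : Fin k,
        ‖DD (cf x₀ X (c₀ i)) (cz x₀ (c₀ i)) (n + 1)‖ ≤
          B * xx i n ^ m l * ‖DD (cf x₀ X (c₀ i)) (cz x₀ (c₀ i)) n‖ ∧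
        ∀ (w : (Fin k → ℂ) → ℂ) (y r K : ℝ) (M : ℕ), 0 < y → y ≤ η →
          y ^ (m l + 1) = ‖w 0 - cz x₀ (c₀ l) 0‖ → 0 < r → 1 ≤ K → B * K * r ≤ y ^ (m l + 1) →
          (∀ s ∈ ball (0 : Fin k → ℂ) r, ∀ s' ∈ ball (0 : Fin k → ℂ) r,
            ‖w s - w s'‖ ≤ K * ‖s - s'‖) →
          (∀ s ∈ ball (0 : Fin k → ℂ) r, RPT x₀ X c₀ c g M l 0 s (w s)) →
          ∃ q : (Fin k → ℂ) → ℂ, ‖q 0 - cz x₀ (c₀ i) n‖ ≤ B * (y + xx i n) ∧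
            y ≤ B * ‖q 0 - cz x₀ (c₀ i) n‖ ∧
            (∀ s ∈ ball (0 : Fin k → ℂ) r, ∀ s' ∈ ball (0 : Fin k → ℂ) r,
              y ^ m l * ‖q s - q s'‖ ≤ B * K * ‖s - s'‖) ∧
            ∀ s ∈ ball (0 : Fin k → ℂ) r, RPT x₀ X c₀ c g (M + 1) i n s (q s)

/-- As `Sett`, with times. -/
structure SettT {k : ℕ} (f : Fin k → ℕ → (Fin k → ℂ) → ℂ → ℂ) (v : Fin k → (Fin k → ℂ) → ℂ)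
    (z : Fin k → ℕ → ℂ) (x : Fin k → ℕ → ℝ) (ρ C c μ : ℝ) (κ : Fin k → ℂ) (m : Fin k → ℕ)
    (RP : ℕ → Fin k → ℕ → (Fin k → ℂ) → ℂ → Prop) (η B : ℝ) : Prop where
  good : ∀ i, Good i (f i) (v i) (z i) (x i) ρ C c μ (κ i)
  mpos : ∀ i, 1 ≤ m i
  η0 : 0 < η
  B1 : 1 ≤ B
  mono : ∀ (M M' : ℕ) (i : Fin k) (n : ℕ) (s : Fin k → ℂ) (u : ℂ), M ≤ M' → RP M i n s u →
    RP M' i n s u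
  tran : ∀ (M : ℕ) (i : Fin k) (N : ℕ) (s : Fin k → ℂ) (w : (Fin k → ℂ) → ℂ), ‖s‖ < ρ →
    (∀ n < N, ‖YY (f i) w n s - z i n‖ < ρ ∧
      ‖s‖ + ‖YY (f i) w n s - z i n‖ ≤ x i n / (2 * C)) →
    RP M i N s (YY (f i) w N s) → RP (M + N) i 0 s (w s)
  close : ∀ (i : Fin k) (n : ℕ), x i n ≤ η → ∃ l : Fin k,
    ‖DD (f i) (z i) (n + 1)‖ ≤ B * x i n ^ m l * ‖DD (f i) (z i) n‖ ∧
    ∀ (w : (Fin k → ℂ) → ℂ) (y r K : ℝ) (M : ℕ), 0 < y → y ≤ η →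
      y ^ (m l + 1) = ‖w 0 - z l 0‖ → 0 < r →
      1 ≤ K → B * K * r ≤ y ^ (m l + 1) →
      (∀ s ∈ ball (0 : Fin k → ℂ) r, ∀ s' ∈ ball (0 : Fin k → ℂ) r,
        ‖w s - w s'‖ ≤ K * ‖s - s'‖) →
      (∀ s ∈ ball (0 : Fin k → ℂ) r, RP M l 0 s (w s)) →
      ∃ q : (Fin k → ℂ) → ℂ, ‖q 0 - z i n‖ ≤ B * (y + x i n) ∧ y ≤ B * ‖q 0 - z i n‖ ∧
        (∀ s ∈ ball (0 : Fin k → ℂ) r, ∀ s' ∈ ball (0 : Fin k → ℂ) r,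
          y ^ m l * ‖q s - q s'‖ ≤ B * K * ‖s - s'‖) ∧
        ∀ s ∈ ball (0 : Fin k → ℂ) r, RP (M + 1) i n s (q s)
  far : ∀ ε > (0 : ℝ), ε ≤ 1 → ∃ ρ₁ > (0 : ℝ), ∃ (L : ℝ) (M : ℕ), ∀ (i : Fin k) (n : ℕ),
    ∃ q : (Fin k → ℂ) → ℂ, IsT q ρ₁ L ∧ ε / 4 ≤ ‖q 0 - z i n‖ ∧ ‖q 0 - z i n‖ ≤ ε ∧
      ∀ s ∈ ball (0 : Fin k → ℂ) ρ₁, RP M i n s (q s)

/-- As `VT`, with a bound for the time. -/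
def VTT {k : ℕ} (z : Fin k → ℕ → ℂ) (RP : ℕ → Fin k → ℕ → (Fin k → ℂ) → ℂ → Prop)
    (β K E : ℝ) (i : Fin k) (δ : ℝ) : Prop :=
  ∃ (w : (Fin k → ℂ) → ℂ) (M : ℕ), (M : ℝ) ≤ E * (1 + Real.log (1 / δ)) ∧
    δ ^ (1 + β) ≤ ‖w 0 - z i 0‖ ∧ ‖w 0 - z i 0‖ ≤ δ ∧
    (∀ s ∈ ball (0 : Fin k → ℂ) (δ ^ (1 + β) / K), ∀ s' ∈ ball (0 : Fin k → ℂ) (δ ^ (1 + β) / K),
      ‖w s - w s'‖ ≤ K * ‖s - s'‖) ∧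
    ∀ s ∈ ball (0 : Fin k → ℂ) (δ ^ (1 + β) / K), RP M i 0 s (w s)

/-- As `S_REAL1` (proved in `Pool/Agent/H356/BT207/REAL1.lean`), with a bound for `N`.

Proof of the last bound (`E₀` depends on all the constants). Case `y = R / (2 K₀ B)`: `y ^ (m + 1) ≥ c₄ μ ^ N δ' ≥ c₄ μ ^ N δ ^ (1 + β / 8)` and
`μ ^ N ≥ c₃ δ ^ (- 8 β)`, so `δ ^ (β / 8) ≥ c₅ μ ^ (- N / 64)` and `log (y ^ (m + 1) / δ) ≥ (1 - 1/64) N log μ - C₅ ≥ (N + 1) log μ / 4`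
for small `δ` (`N → ∞` as `δ → 0`). Case `y ^ (m + 1) = δ₁`: `c μ ^ (N + 1) ≤ B P ≤ B / δ' ≤ B δ ^ (-2)`, so
`N ≤ C₆ (1 + log (1 / δ)) ≤ C₇ log (δ₁ / δ)` for small `δ`. -/
def S_REAL1T : Prop :=
  ∀ (C c μ B K₀ β δ₁ : ℝ) (M : ℕ), 0 < c → 1 < μ → μ ≤ C → 1 ≤ B → 1 ≤ K₀ → 0 < β →
    β * Real.log C ≤ Real.log μ / 16 → 0 < δ₁ → δ₁ ≤ 1 → ∃ δb > (0 : ℝ), ∃ E₀ > (0 : ℝ),
      ∀ (δ δ' P : ℝ) (N m : ℕ), 0 < δ → δ < δb → δ ^ (1 + β / 8) ≤ δ' → δ' ≤ δ → 1 ≤ m → m ≤ M →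
        0 < P → P ≤ C ^ N → δ' * P ≤ 1 →
        c * μ ^ (N + 1) ≤ B * ((δ' * P) / (2 * K₀ * B)) ^ m * P →
        ∀ y : ℝ, y = min ((δ' * P) / (2 * K₀ * B)) (δ₁ ^ ((1 : ℝ) / ((m : ℝ) + 1))) →
          0 < y ∧ (2 + K₀ * B) * δ ≤ y ^ (m + 1) ∧ y ^ (m + 1) ≤ δ₁ ∧
          (N : ℝ) + 1 ≤ E₀ * Real.log (y ^ (m + 1) / δ) ∧
          ∀ y' : ℝ, y ^ (1 + β) ≤ y' → y' ≤ y →
            2 * K₀ * B ≤ y' ^ m * P ∧ δ ^ (1 + β) ≤ y' / (B * K₀ * P)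

/-- **The recursion, with times.** (Assume `S_PULL`, `S_SCALE3`, `S_REAL1T`.) As `t_VTR` (`Pool/Agent/H250/BT207/VTR.lean`; the
theorem is `S_PULL → S_SCALE3 → S_REAL1 → S_VT`; adapt it).

The times: with `M''` for the scale `δ'' = y ^ (m + 1)` the new time is `M'' + 1 + N`, and
`M'' + 1 + N ≤ E (1 + log (1 / δ'')) + E₀ log (δ'' / δ) ≤ E (1 + log (1 / δ))` if `E ≥ E₀`. In the far case the time is `M₁ + N` with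
`c μ ^ N ≤ P ≤ 1 / δ' ≤ δ ^ (-2)`, so at most `E (1 + log (1 / δ))` if `E` is large; in the base case the times are bounded. (All
scales are at most `1`.) -/
def S_VTT : Prop :=
  ∀ (k : ℕ) (f : Fin k → ℕ → (Fin k → ℂ) → ℂ → ℂ) (v : Fin k → (Fin k → ℂ) → ℂ)
    (z : Fin k → ℕ → ℂ) (x : Fin k → ℕ → ℝ) (ρ C c μ : ℝ) (κ : Fin k → ℂ) (m : Fin k → ℕ)
    (RP : ℕ → Fin k → ℕ → (Fin k → ℂ) → ℂ → Prop) (η B : ℝ),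
    SettT f v z x ρ C c μ κ m RP η B → ∀ β > (0 : ℝ), ∃ δ₀ > (0 : ℝ), δ₀ ≤ 1 ∧ ∃ K ≥ (1 : ℝ),
      ∃ E > (0 : ℝ), ∀ (i : Fin k) (δ : ℝ), 0 < δ → δ ≤ δ₀ → VTT z RP β K E i δ

/-- **Targets for the solution, with times.** (Assume `S_VTT`.) As `S_TOP` (proved in `Pool/Agent/H404/BT207/TOP.lean`; adapt it).
The time: `M'' + 1` with `δ'' = y ^ (m + 1) ≥ c r`, so at most `E (1 + log (1 / r))` for a larger `E` (`r ≤ r₀ ≤ 1/2`). -/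
def S_TOPT : Prop :=
  ∀ (k : ℕ) (f : Fin k → ℕ → (Fin k → ℂ) → ℂ → ℂ) (v : Fin k → (Fin k → ℂ) → ℂ)
    (z : Fin k → ℕ → ℂ) (x : Fin k → ℕ → ℝ) (ρ C c μ : ℝ) (κ : Fin k → ℂ) (m : Fin k → ℕ)
    (RP : ℕ → Fin k → ℕ → (Fin k → ℂ) → ℂ → Prop) (η B : ℝ),
    SettT f v z x ρ C c μ κ m RP η B →
      ∀ σ > (0 : ℝ), ∃ A > (0 : ℝ), ∀ ε > (0 : ℝ), ∃ r₀ > (0 : ℝ), ∃ E > (0 : ℝ),
        ∀ (i : Fin k) (N : ℕ) (r : ℝ), 0 < r → r ≤ r₀ → r * ‖DD (f i) (z i) N‖ ≤ 1 →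
        (ε ≤ r * ‖DD (f i) (z i) N‖ ∨ A * x i N ≤ r * ‖DD (f i) (z i) N‖) →
        ∃ (q : (Fin k → ℂ) → ℂ) (M : ℕ), (M : ℝ) ≤ E * (1 + Real.log (1 / r)) ∧
          (∀ s ∈ ball (0 : Fin k → ℂ) r, RP M i N s (q s)) ∧
          (∀ s ∈ ball (0 : Fin k → ℂ) r, ∀ s' ∈ ball (0 : Fin k → ℂ) r,
            ‖q s - q s'‖ ≤ σ * ‖DD (f i) (z i) N‖ * ‖s - s'‖) ∧
          ‖q 0 - z i N‖ ≤ σ * (r * ‖DD (f i) (z i) N‖)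

/-- **Solving the equations, with times and a rate.** (Assume `S_SCALE2`, `S_FOL2`.) As `S_SOLVE3` (proved in
`Pool/Agent/H980/BT207/SOLVE3.lean`), with `S_SCALE2` instead of `S_SCALE` (see `Pool/Agent/H307/HY211/SOLVE2.lean`):
`(1/2) ^ (2 T) ≤ r ≤ (1/2) ^ T`, so `1 + log (1 / r) ≤ 1 + 2 T`. -/
def S_SOLVE3T : Prop :=
  ∀ (k : ℕ) (f : Fin k → ℕ → (Fin k → ℂ) → ℂ → ℂ) (v : Fin k → (Fin k → ℂ) → ℂ)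
    (z : Fin k → ℕ → ℂ) (x : Fin k → ℕ → ℝ) (ρ C c μ : ℝ) (κ : Fin k → ℂ),
    (∀ i, Good i (f i) (v i) (z i) (x i) ρ C c μ (κ i)) →
    ∀ Tg : ℕ → Fin k → ℕ → (Fin k → ℂ) → ℂ → Prop,
      (∀ σ > (0 : ℝ), ∃ A > (0 : ℝ), ∀ ε > (0 : ℝ), ∃ r₀ > (0 : ℝ), ∃ E > (0 : ℝ),
        ∀ (i : Fin k) (N : ℕ) (r : ℝ), 0 < r → r ≤ r₀ → r * ‖DD (f i) (z i) N‖ ≤ 1 →
        (ε ≤ r * ‖DD (f i) (z i) N‖ ∨ A * x i N ≤ r * ‖DD (f i) (z i) N‖) →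
        ∃ (q : (Fin k → ℂ) → ℂ) (M : ℕ), (M : ℝ) ≤ E * (1 + Real.log (1 / r)) ∧
          (∀ s ∈ ball (0 : Fin k → ℂ) r, Tg M i N s (q s)) ∧
          (∀ s ∈ ball (0 : Fin k → ℂ) r, ∀ s' ∈ ball (0 : Fin k → ℂ) r,
            ‖q s - q s'‖ ≤ σ * ‖DD (f i) (z i) N‖ * ‖s - s'‖) ∧
          ‖q 0 - z i N‖ ≤ σ * (r * ‖DD (f i) (z i) N‖)) →
      ∃ B T₀ : ℕ, ∀ T ≥ T₀, ∃ s : Fin k → ℂ, ‖s‖ ≤ (1 / 2 : ℝ) ^ T ∧ ∀ i, ∃ N ≤ B * T, ∃ M ≤ B * T,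
        Tg M i N s (YY (f i) (v i) N s) ∧
          ∀ n < N, ‖YY (f i) (v i) n s - z i n‖ < ρ ∧
            ‖s‖ + ‖YY (f i) (v i) n s - z i n‖ ≤ x i n / (2 * C)

/-- As `TypP`, with an exponential rate. -/
def TypT {d : ℕ} (x : CV d) : Prop :=
  ∃ (k : ℕ) (c₀ : Fin k → ℂ × ℂ) (m : Fin k → ℕ) (a : ℂ), a ≠ 0 ∧ (∀ i, 1 ≤ m i) ∧
    (∀ i, c₀ i ≠ 0) ∧ (∀ i j, i ≠ j → cr (c₀ i) (c₀ j) ≠ 0) ∧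
    (∀ p, wr x p = a * ∏ i, cr p (c₀ i) ^ m i) ∧
    ∀ φ : Fin k → Fin k, ∃ (B T₀ : ℕ) (K : ℝ), ∀ T ≥ T₀,
      ∃ (z : CV d) (c' : Fin k → ℂ × ℂ) (a' : ℂ),
      ‖z - x‖ ≤ K * (1 / 2 : ℝ) ^ T ∧ ND z ∧ a' ≠ 0 ∧ (∀ i, c' i ≠ 0) ∧
      (∀ i j, i ≠ j → cr (c' i) (c' j) ≠ 0) ∧ (∀ p, wr z p = a' * ∏ i, cr p (c' i) ^ m i) ∧
      (∀ i, cho (c' i) (c₀ i) ≤ K * (1 / 2 : ℝ) ^ T) ∧
      ∀ i, ∃ n : ℕ, 1 ≤ n ∧ n ≤ B * T ∧ cr ((hF z)^[n] (c' i)) (c' (φ i)) = 0 ∧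
        ∀ j : ℕ, 1 ≤ j → j < n → wr z ((hF z)^[j] (c' i)) ≠ 0

/-- **Normalisation, with the rate.** As `S_NORM5` (proved in `Pool/Agent/H813/BT207/NORM5.lean`). -/
def S_NORM5T : Prop :=
  ∀ (d : ℕ) (x : CV d), Hyp0 x → (∀ y : CV d, Hyp0 y → Nrm y → TypT y) → TypT x

end Pool.Agent.H207.BT
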